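import Mathlib

/-!
# Fibered holomorphic partially hyperbolic diffeomorphisms: definitions

A complex `n`-fold is a Mathlib manifold modelled on `ℂⁿ` with complex analytic transition maps.
The first definitions only name Mathlib's tangent spaces, tangent bundle and derivative of such
manifolds; the notions of the problem are built on them.
-/

open scoped Manifold ContDiff Topology
open Set

namespace Pool.Agent.H49

/-- `ℂⁿ`. -/
def Cn (n : ℕ) : Type := EuclideanSpace ℂ (Fin n)

noncomputable instance (n : ℕ) : NormedAddCommGroup (Cn n) :=
  PiLp.normedAddCommGroup 2 (fun _ : Fin n => ℂ)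

noncomputable instance (n : ℕ) : NormedSpace ℂ (Cn n) :=
  PiLp.normedSpace 2 ℂ (fun _ : Fin n => ℂ)

/-- The model of `n`-folds without boundary. -/
noncomputable def model (n : ℕ) : ModelWithCorners ℂ (Cn n) (Cn n) := modelWithCornersSelf ℂ (Cn n)

/-- A complex `n`-fold: a topological space with charts in `ℂⁿ` and complex analytic transition
maps (Mathlib's `IsManifold` over `ℂ`, of class `ω`). -/
structure ComplexManifold (n : ℕ) where
  carrier : Type
  topology : TopologicalSpace carrier
  charts : ChartedSpace (Cn n) carrier
  analytic : IsManifold (model n) ω carrier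

attribute [instance] ComplexManifold.topology ComplexManifold.charts ComplexManifold.analytic

/-- `ℂᶜ` as a complex manifold. -/
noncomputable def affine (c : ℕ) : ComplexManifold c where
  carrier := Cn c
  topology := (inferInstance : TopologicalSpace (Cn c))
  charts := chartedSpaceSelf (Cn c)
  analytic := instIsManifoldModelSpace

variable {m n : ℕ}

/-- The (holomorphic) tangent space of `M` at `x`. -/
def Tan (M : ComplexManifold n) (x : M.carrier) : Type := TangentSpace (model n) x

noncomputable instance (M : ComplexManifold n) (x : M.carrier) : AddCommGroup (Tan M x) :=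
  NormedAddCommGroup.toAddCommGroup (E := Cn n)

noncomputable instance (M : ComplexManifold n) (x : M.carrier) : Module ℂ (Tan M x) :=
  NormedSpace.toModule (E := Cn n)

/-- The total space of the tangent bundle, with Mathlib's topology. -/
def TanBundle (M : ComplexManifold n) : Type := TangentBundle (model n) M.carrier

noncomputable instance (M : ComplexManifold n) : TopologicalSpace (TanBundle M) :=
  instTopologicalSpaceTangentBundle

/-- The derivative at `x` of a map of complex manifolds (Mathlib's `mfderiv`). -/
noncomputable def D {M : ComplexManifold m} {N : ComplexManifold n} (f : M.carrier → N.carrier)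
    (x : M.carrier) : Tan M x →ₗ[ℂ] Tan N (f x) :=
  (mfderiv (model m) (model n) f x).toLinearMap

/-- `f` is complex differentiable at `x`. -/
def IsHolomorphicAt {M : ComplexManifold m} {N : ComplexManifold n} (f : M.carrier → N.carrier)
    (x : M.carrier) : Prop :=
  MDifferentiableAt (model m) (model n) f x

/-- A vector field on `M`. -/
abbrev VField (M : ComplexManifold n) : Type := ∀ x, Tan M x

/-- A field of complex subspaces of the tangent spaces of `M`. -/
abbrev Distribution (M : ComplexManifold n) : Type := ∀ x, Submodule ℂ (Tan M x)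

/-- The vector field `X` as a map from `M` to the total space of the tangent bundle. -/
def VField.section {M : ComplexManifold n} (X : VField M) (x : M.carrier) : TanBundle M :=
  Bundle.TotalSpace.mk x (X x)

/-- The vector field `X` is holomorphic on `U`. -/
def VField.IsHolomorphicOn {M : ComplexManifold n} (X : VField M) (U : Set M.carrier) : Prop :=
  MDifferentiableOn (M' := TangentBundle (model n) M.carrier) (model n) (model n).tangent
    X.section U

/-! ### Distributions -/

/-- On `U`, the vector fields `X 0, ..., X (r - 1)` span `E`. -/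
def Spans {M : ComplexManifold n} {r : ℕ} (X : Fin r → VField M) (E : Distribution M)
    (U : Set M.carrier) : Prop :=
  ∀ x ∈ U, Submodule.span ℂ (range fun i => X i x) = E x

/-- `E` is a continuous complex subbundle of `TM`: near every point it has a continuous frame. -/
def IsContinuousSubbundle {M : ComplexManifold n} (E : Distribution M) : Prop :=
  ∀ x₀, ∃ (U : Set M.carrier) (r : ℕ) (X : Fin r → VField M), IsOpen U ∧ x₀ ∈ U ∧
    (∀ i, ContinuousOn (X i).section U) ∧ Spans X E U ∧
    ∀ x ∈ U, LinearIndependent ℂ fun i => X i x

/-- `E` is holomorphic near `x₀`: on a neighbourhood of `x₀` it is spanned by holomorphic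
vector fields. -/
def IsHolomorphicNear {M : ComplexManifold n} (E : Distribution M) (x₀ : M.carrier) : Prop :=
  ∃ (U : Set M.carrier) (r : ℕ) (X : Fin r → VField M), IsOpen U ∧ x₀ ∈ U ∧
    (∀ i, (X i).IsHolomorphicOn U) ∧ Spans X E U

/-! ### Partial hyperbolicity -/

/-- A Riemannian metric on `M`: a real inner product on every tangent space, depending
continuously on the point. -/
structure RMetric (M : ComplexManifold n) where
  inner : ∀ x, Tan M x → Tan M x → ℝ
  symm : ∀ x v w, inner x v w = inner x w v
  add_left : ∀ x u v w, inner x (u + v) w = inner x u w + inner x v w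
  smul_left : ∀ x (r : ℝ) v w, inner x ((r : ℂ) • v) w = r * inner x v w
  pos : ∀ x v, v ≠ 0 → 0 < inner x v v
  cont : Continuous fun p : TanBundle M => inner p.proj p.snd p.snd

/-- The length of a tangent vector. -/
noncomputable def RMetric.len {M : ComplexManifold n} (g : RMetric M) {x : M.carrier}
    (v : Tan M x) : ℝ :=
  Real.sqrt (g.inner x v v)

/-- The inequalities of partial hyperbolicity for `h` (a power of `f`), for the metric `g`. The
unit spheres of the `E^σ(x)` are compact, so the pointwise inequalities below say
`‖Dh|E^s(x)‖ < 1 < m(Dh|E^u(x))`, `‖Dh|E^s(x)‖ < m(Dh|E^c(x))` and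
`‖Dh|E^c(x)‖ < m(Dh|E^u(x))`. -/
def IsDominated {M : ComplexManifold n} (g : RMetric M) (h : M.carrier → M.carrier)
    (Es Ec Eu : Distribution M) : Prop :=
  ∀ x, (∀ u ∈ Es x, g.len u = 1 → g.len (D h x u) < 1) ∧
    (∀ w ∈ Eu x, g.len w = 1 → 1 < g.len (D h x w)) ∧
    (∀ u ∈ Es x, ∀ v ∈ Ec x, g.len u = 1 → g.len v = 1 → g.len (D h x u) < g.len (D h x v)) ∧
    (∀ v ∈ Ec x, ∀ w ∈ Eu x, g.len v = 1 → g.len w = 1 → g.len (D h x v) < g.len (D h x w))

/-- The nonzero continuous complex subbundle `E` is invariant under the derivative of `f`. -/
def IsInvariantSubbundle {M : ComplexManifold n} (f : M.carrier → M.carrier)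
    (E : Distribution M) : Prop :=
  IsContinuousSubbundle E ∧ (∀ x, E x ≠ ⊥) ∧ ∀ x, (E x).map (D f x) = E (f x)

/-- `f` is a holomorphic partially hyperbolic diffeomorphism of the complex manifold `M` with
splitting `TM = E^s ⊕ E^c ⊕ E^u`: `f` is biholomorphic, the three bundles are nonzero continuous
`Df`-invariant complex subbundles, and for every Riemannian metric on `M` (and there is one) some
iterate `f^k`, `k ≥ 1`, satisfies the inequalities of partial hyperbolicity. -/
structure IsPartiallyHyperbolic {M : ComplexManifold n} (f : M.carrier ≃ M.carrier)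
    (Es Ec Eu : Distribution M) : Prop where
  holomorphic : ∀ x, IsHolomorphicAt f x
  holomorphic_inverse : ∀ x, IsHolomorphicAt f.symm x
  stable : IsInvariantSubbundle f Es
  center : IsInvariantSubbundle f Ec
  unstable : IsInvariantSubbundle f Eu
  splitting_top : ∀ x, Es x ⊔ Ec x ⊔ Eu x = ⊤
  splitting_sc : ∀ x, Es x ⊓ Ec x = ⊥
  splitting_scu : ∀ x, (Es x ⊔ Ec x) ⊓ Eu x = ⊥
  metric : Nonempty (RMetric M)
  dominated : ∀ g : RMetric M, ∃ k : ℕ, 1 ≤ k ∧ IsDominated g f^[k] Es Ec Eu

/-- The plaque `s : ℂᶜ → M` is, at `z`, a holomorphic immersion with tangent space `E`. -/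
def IsPlaqueAt {M : ComplexManifold n} {c : ℕ} (s : (affine c).carrier → M.carrier)
    (z : (affine c).carrier) (E : Submodule ℂ (Tan M (s z))) : Prop :=
  IsHolomorphicAt s z ∧ Function.Injective (D s z) ∧ LinearMap.range (D s z) = E

/-- The distribution `E` is tangent to an `f`-invariant foliation of `M` with compact leaves which
is a topological fibration of `M`: there are a topological manifold `B` (the leaf space, Hausdorff
and second countable, modelled on `ℝᵈ`) and a quotient map `π : M → B`, locally trivial with
compact connected fibre `F`, whose fibres are the leaves; `f` maps leaves to leaves; and near every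
point there is a foliation chart `e`, a homeomorphism from an open subset of `ℂᶜ × B` onto an open
subset of `M` with `π (e (z, b)) = b`, whose plaques `z ↦ e (z, b)` are holomorphic immersions
with tangent spaces `E`. -/
def IsFibered {M : ComplexManifold n} (f : M.carrier → M.carrier) (E : Distribution M) : Prop :=
  ∃ (B : Type) (_ : TopologicalSpace B) (d : ℕ) (_ : ChartedSpace (Fin d → ℝ) B)
    (F : Type) (_ : TopologicalSpace F) (π : M.carrier → B) (h : B → B) (c : ℕ),
    T2Space B ∧ SecondCountableTopology B ∧ CompactSpace F ∧ ConnectedSpace F ∧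
    Topology.IsQuotientMap π ∧ (∀ b : B, ∃ τ : Bundle.Trivialization F π, b ∈ τ.baseSet) ∧
    (∀ x, π (f x) = h (π x)) ∧
    ∀ x₀, ∃ e : OpenPartialHomeomorph ((affine c).carrier × B) M.carrier, x₀ ∈ e.target ∧
      ∀ z b, (z, b) ∈ e.source → π (e (z, b)) = b ∧
        IsPlaqueAt (fun z => e (z, b)) z (E (e (z, b)))

end Pool.Agent.H49
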