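import Mathlib

/-!
# The Riemann sphere and the map `ζ ↦ -1/ζ`
-/

open scoped Topology OnePoint
open Set Filter OnePoint

namespace Pool.Agent.H49

/-- The Riemann sphere, as a topological space. -/
abbrev P1 : Type := OnePoint ℂ

/-- The map `ζ ↦ -1/ζ` of the Riemann sphere. -/
noncomputable def negInv (s : P1) : P1 :=
  s.elim ((0 : ℂ) : P1) (fun z => if z = 0 then ∞ else ((-z⁻¹ : ℂ) : P1))

@[simp] lemma negInv_infty : negInv ∞ = ((0 : ℂ) : P1) := rfl
@[simp] lemma negInv_zero : negInv ((0 : ℂ) : P1) = ∞ := by simp [negInv]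
lemma negInv_coe {z : ℂ} (hz : z ≠ 0) : negInv (z : P1) = ((-z⁻¹ : ℂ) : P1) := by
  simp [negInv, hz]

lemma negInv_negInv (s : P1) : negInv (negInv s) = s := by
  induction s using OnePoint.rec with
  | infty => simp
  | coe z =>
    by_cases hz : z = 0
    · subst hz; simp
    · rw [negInv_coe hz, negInv_coe (by simpa using hz)]
      congr 1
      field_simp

lemma continuous_negInv : Continuous negInv := by
  rw [OnePoint.continuous_iff]
  constructor
  · rw [negInv_infty]
    rw [coclosedCompact_eq_cocompact, ← Metric.cobounded_eq_cocompact]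
    have h1 : Tendsto (fun z : ℂ => ((-z⁻¹ : ℂ) : P1)) (Bornology.cobounded ℂ)
        (𝓝 ((0 : ℂ) : P1)) := by
      have h2 : Tendsto (fun z : ℂ => -z⁻¹) (Bornology.cobounded ℂ) (𝓝 (-0)) :=
        tendsto_inv₀_cobounded.neg
      rw [neg_zero] at h2
      exact (OnePoint.continuous_coe.tendsto _).comp h2
    refine h1.congr' ?_
    have h3 : ∀ᶠ z : ℂ in Bornology.cobounded ℂ, z ≠ 0 := Bornology.eventually_ne_cobounded 0
    filter_upwards [h3] with z hz
    exact (negInv_coe hz).symm
  · rw [continuous_iff_continuousAt]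
    intro z
    by_cases hz : z = 0
    · subst hz
      change Tendsto (fun z : ℂ => negInv (z : P1)) (𝓝 0) (𝓝 (negInv ((0 : ℂ) : P1)))
      rw [negInv_zero, ← pure_sup_nhdsNE, tendsto_sup]
      constructor
      · rw [tendsto_pure_left]
        intro s hs
        simpa using mem_of_mem_nhds hs
      · have h1 : Tendsto (fun z : ℂ => -z⁻¹) (𝓝[≠] 0) (Bornology.cobounded ℂ) := by
          rw [← tendsto_norm_atTop_iff_cobounded]
          simp only [norm_neg]
          rw [tendsto_norm_atTop_iff_cobounded]
          exact tendsto_inv₀_nhdsNE_zero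
        rw [Metric.cobounded_eq_cocompact, ← coclosedCompact_eq_cocompact] at h1
        refine (tendsto_coe_infty.comp h1).congr' ?_
        filter_upwards [self_mem_nhdsWithin] with w hw
        exact (negInv_coe hw).symm
    · have h1 : ContinuousAt (fun w : ℂ => ((-w⁻¹ : ℂ) : P1)) z :=
        OnePoint.continuous_coe.continuousAt.comp (continuousAt_inv₀ hz).neg
      refine h1.congr ?_
      filter_upwards [isOpen_ne.mem_nhds hz] with w hw
      exact (negInv_coe hw).symm

/-- `ζ ↦ -1/ζ` as a homeomorphism. -/
noncomputable def negInvHomeo : P1 ≃ₜ P1 where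
  toFun := negInv
  invFun := negInv
  left_inv := negInv_negInv
  right_inv := negInv_negInv
  continuous_toFun := continuous_negInv
  continuous_invFun := continuous_negInv

lemma isLocalHomeomorph_coe : IsLocalHomeomorph ((↑) : ℂ → P1) :=
  (OnePoint.isOpenEmbedding_coe (X := ℂ)).isLocalHomeomorph

end Pool.Agent.H49
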