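import Mathlib

/-!
# The cubic unit, the lattice and the real six-torus
-/

open scoped Topology ComplexConjugate
open Set Filter

namespace Pool.Agent.H49

/-! ### The numbers `ρ` and `lam`: the real and a complex root of `x³ - x - 1` -/

lemma exists_rho : ∃ r : ℝ, r ∈ Icc (1.3 : ℝ) 1.4 ∧ r ^ 3 - r - 1 = 0 := by
  have hc : ContinuousOn (fun x : ℝ => x ^ 3 - x - 1) (Icc (1.3 : ℝ) 1.4) := by fun_prop
  have h := intermediate_value_Icc (by norm_num : (1.3 : ℝ) ≤ 1.4) hc
  have h0 : (0 : ℝ) ∈ Icc ((1.3 : ℝ) ^ 3 - 1.3 - 1) ((1.4 : ℝ) ^ 3 - 1.4 - 1) := by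
    constructor <;> norm_num
  obtain ⟨r, hr, h⟩ := h h0
  exact ⟨r, hr, h⟩

/-- The real root of `x³ - x - 1`. -/
noncomputable def rho : ℝ := exists_rho.choose

lemma rho_mem : rho ∈ Icc (1.3 : ℝ) 1.4 := exists_rho.choose_spec.1
lemma rho_ge : (1.3 : ℝ) ≤ rho := rho_mem.1
lemma rho_le : rho ≤ (1.4 : ℝ) := rho_mem.2
lemma rho_cube : rho ^ 3 = rho + 1 := by have := exists_rho.choose_spec.2; unfold rho; linarith
lemma one_lt_rho : 1 < rho := by have := rho_ge; linarith
lemma rho_pos : 0 < rho := by have := rho_ge; linarith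

/-- Imaginary part of the complex root. -/
noncomputable def nu : ℝ := Real.sqrt (3 * rho ^ 2 - 4) / 2

lemma nu_sq : nu ^ 2 = (3 * rho ^ 2 - 4) / 4 := by
  unfold nu
  rw [div_pow, Real.sq_sqrt]
  · norm_num
  · nlinarith [rho_ge]

lemma nu_pos : 0 < nu := by
  unfold nu
  apply div_pos (Real.sqrt_pos.mpr _) (by norm_num)
  nlinarith [rho_ge]

/-- The complex root of `x³ - x - 1` in the upper half plane. -/
noncomputable def lam : ℂ := ⟨-rho / 2, nu⟩

@[simp] lemma lam_re : lam.re = -rho / 2 := rfl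
@[simp] lemma lam_im : lam.im = nu := rfl

lemma lam_sq : lam ^ 2 = -(rho : ℂ) * lam - ((rho : ℂ) ^ 2 - 1) := by
  have h := nu_sq
  apply Complex.ext
  · simp [pow_two]
    nlinarith
  · simp [pow_two]
    ring

lemma lam_cube : lam ^ 3 = lam + 1 := by
  have h := lam_sq
  have h3 : ((rho : ℂ)) ^ 3 = rho + 1 := by exact_mod_cast congrArg (fun x : ℝ => (x : ℂ)) rho_cube
  have : lam ^ 3 = lam * lam ^ 2 := by ring
  rw [this, h]
  have h2 : lam * (-(rho : ℂ) * lam - ((rho : ℂ) ^ 2 - 1))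
      = -(rho : ℂ) * lam ^ 2 - ((rho : ℂ) ^ 2 - 1) * lam := by ring
  rw [h2, h]
  have h4 : -(rho : ℂ) * (-(rho : ℂ) * lam - ((rho : ℂ) ^ 2 - 1)) - ((rho : ℂ) ^ 2 - 1) * lam
      = lam + ((rho : ℂ) ^ 3 - rho) := by ring
  rw [h4, h3]
  ring

lemma normSq_lam : Complex.normSq lam = rho ^ 2 - 1 := by
  rw [Complex.normSq_apply]
  simp only [lam_re, lam_im]
  have h := nu_sq
  nlinarith

lemma norm_lam_lt_one : ‖lam‖ < 1 := by
  have h1 : ‖lam‖ ^ 2 = rho ^ 2 - 1 := by rw [← Complex.normSq_eq_norm_sq, normSq_lam]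
  have h2 := rho_le
  have h3 := rho_pos
  by_contra hcon
  push Not at hcon
  nlinarith

lemma norm_lam_pos : 0 < ‖lam‖ := by
  rw [norm_pos_iff]
  intro h
  have := congrArg Complex.im h
  simp at this
  exact nu_pos.ne' this

/-! ### The lattice -/

/-- `ℝ⁶`. -/
abbrev R6 : Type := Fin 6 → ℝ

/-- `ℂ³`, with coordinates `(a, b, c)`. -/
abbrev V3 : Type := ℂ × ℂ × ℂ

/-- The linear map `ℝ⁶ → ℂ³`. -/
noncomputable def Llin : R6 →ₗ[ℝ] V3 where
  toFun x := (x 0 + x 1 * lam + x 2 * lam ^ 2, x 3 + x 4 * lam + x 5 * lam ^ 2,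
    (x 0 + x 1 * rho + x 2 * rho ^ 2 : ℂ) + (x 3 + x 4 * rho + x 5 * rho ^ 2 : ℂ) * Complex.I)
  map_add' x y := by
    simp only [Pi.add_apply, Complex.ofReal_add, Prod.mk_add_mk, Prod.mk.injEq]
    refine ⟨by ring, by ring, by ring⟩
  map_smul' r x := by
    simp only [Pi.smul_apply, smul_eq_mul, Complex.ofReal_mul, RingHom.id_apply, Prod.smul_mk,
      Complex.real_smul, Prod.mk.injEq]
    refine ⟨by ring, by ring, by ring⟩

lemma three_zero {x y z : ℝ} (h1 : (x + y * lam + z * lam ^ 2 : ℂ) = 0)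
    (h2 : x + y * rho + z * rho ^ 2 = 0) : x = 0 ∧ y = 0 ∧ z = 0 := by
  have hn := nu_sq
  have hp := nu_pos
  have hr := rho_ge
  have hre := congrArg Complex.re h1
  have him := congrArg Complex.im h1
  simp [pow_two] at hre him
  -- him : y * nu + z * (..) = 0
  have h3 : nu * (y - z * rho) = 0 := by nlinarith
  have h4 : y = z * rho := by
    rcases mul_eq_zero.mp h3 with h | h
    · exact absurd h hp.ne'
    · linarith
  subst h4
  have h5 : z * (3 * rho ^ 2 - 1) = 0 := by nlinarith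
  have h6 : z = 0 := by
    rcases mul_eq_zero.mp h5 with h | h
    · exact h
    · exfalso; nlinarith
  subst h6
  refine ⟨by linarith, by ring, rfl⟩

lemma Llin_injective : Function.Injective Llin := by
  rw [← LinearMap.ker_eq_bot, LinearMap.ker_eq_bot']
  intro x hx
  have h1 : (x 0 + x 1 * lam + x 2 * lam ^ 2 : ℂ) = 0 := congrArg Prod.fst hx
  have h2 : (x 3 + x 4 * lam + x 5 * lam ^ 2 : ℂ) = 0 := congrArg (fun p => p.2.1) hx
  have h3 : (x 0 + x 1 * rho + x 2 * rho ^ 2 : ℂ)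
    + (x 3 + x 4 * rho + x 5 * rho ^ 2 : ℂ) * Complex.I = 0 := congrArg (fun p => p.2.2) hx
  have h3re : x 0 + x 1 * rho + x 2 * rho ^ 2 = 0 := by
    have := congrArg Complex.re h3
    simpa [pow_two] using this
  have h3im : x 3 + x 4 * rho + x 5 * rho ^ 2 = 0 := by
    have := congrArg Complex.im h3
    simpa [pow_two] using this
  obtain ⟨e0, e1, e2⟩ := three_zero h1 h3re
  obtain ⟨e3, e4, e5⟩ := three_zero h2 h3im
  funext i
  fin_cases i <;> assumption

lemma finrank_V3 : Module.finrank ℝ R6 = Module.finrank ℝ V3 := by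
  simp

/-- The linear isomorphism `ℝ⁶ ≃ ℂ³`. -/
noncomputable def L : R6 ≃L[ℝ] V3 :=
  (LinearEquiv.ofInjectiveOfFinrankEq Llin Llin_injective finrank_V3).toContinuousLinearEquiv

lemma L_apply (x : R6) : L x = (x 0 + x 1 * lam + x 2 * lam ^ 2, x 3 + x 4 * lam + x 5 * lam ^ 2,
    (x 0 + x 1 * rho + x 2 * rho ^ 2 : ℂ) + (x 3 + x 4 * rho + x 5 * rho ^ 2 : ℂ) * Complex.I) :=
  rfl

/-! ### Local homeomorphisms -/

lemma isLocalHomeomorph_of_open_of_locInj {X Y : Type*} [TopologicalSpace X] [TopologicalSpace Y]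
    {f : X → Y} (hc : Continuous f) (ho : IsOpenMap f)
    (hi : ∀ x, ∃ U : Set X, IsOpen U ∧ x ∈ U ∧ InjOn f U) : IsLocalHomeomorph f := by
  rw [isLocalHomeomorph_iff_isOpenEmbedding_restrict]
  intro x
  obtain ⟨U, hU, hx, hinj⟩ := hi x
  refine ⟨U, hU.mem_nhds hx, ?_⟩
  refine Topology.IsOpenEmbedding.of_continuous_injective_isOpenMap ?_ ?_ ?_
  · exact hc.comp continuous_subtype_val
  · exact injOn_iff_injective.mp hinj
  · exact ho.comp (hU.isOpenMap_subtype_val)

lemma _root_.IsLocalHomeomorph.prodMapAux {X Y X' Y' : Type*} [TopologicalSpace X]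
    [TopologicalSpace Y] [TopologicalSpace X'] [TopologicalSpace Y'] {f : X → Y} {g : X' → Y'}
    (hf : IsLocalHomeomorph f) (hg : IsLocalHomeomorph g) :
    IsLocalHomeomorph (Prod.map f g) := by
  apply isLocalHomeomorph_of_open_of_locInj (hf.continuous.prodMap hg.continuous)
    (hf.isOpenMap.prodMap hg.isOpenMap)
  rintro ⟨x, x'⟩
  refine ⟨(hf.localInverseAt x).target ×ˢ (hg.localInverseAt x').target,
    (hf.localInverseAt x).open_target.prod (hg.localInverseAt x').open_target,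
    ⟨hf.self_mem_localInverseAt_target, hg.self_mem_localInverseAt_target⟩, ?_⟩
  rintro ⟨a, a'⟩ ⟨ha, ha'⟩ ⟨b, b'⟩ ⟨hb, hb'⟩ h
  have h1 := congrArg Prod.fst h
  have h2 := congrArg Prod.snd h
  exact Prod.ext (hf.injOn_localInverseAt_target ha hb h1)
    (hg.injOn_localInverseAt_target ha' hb' h2)

/-! ### The torus -/

/-- The real `6`-torus. -/
abbrev T6 : Type := Fin 6 → UnitAddCircle

/-- The projection `ℝ⁶ → T⁶`. -/
def piT (x : R6) : T6 := fun i => (x i : UnitAddCircle)

lemma continuous_piT : Continuous piT :=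
  continuous_pi fun i => (AddCircle.continuous_mk' 1).comp (continuous_apply i)

lemma isOpenQuotientMap_piT : IsOpenQuotientMap piT := by
  have : IsOpenQuotientMap (Pi.map fun (_ : Fin 6) (x : ℝ) => (x : UnitAddCircle)) :=
    IsOpenQuotientMap.piMap fun _ => QuotientAddGroup.isOpenQuotientMap_mk
  exact this

lemma piT_eq_iff {x y : R6} : piT x = piT y ↔ ∃ m : Fin 6 → ℤ, ∀ i, y i = x i + m i := by
  constructor
  · intro h
    have h1 : ∀ i, ∃ n : ℤ, y i = x i + n := by
      intro i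
      have h2 : ((x i : ℝ) : UnitAddCircle) = ((y i : ℝ) : UnitAddCircle) := congrFun h i
      rw [eq_comm, ← sub_eq_zero, ← AddCircle.coe_sub, AddCircle.coe_eq_zero_iff] at h2
      obtain ⟨n, hn⟩ := h2
      refine ⟨n, ?_⟩
      simp at hn
      linarith
    choose m hm using h1
    exact ⟨m, hm⟩
  · rintro ⟨m, hm⟩
    funext i
    change ((x i : ℝ) : UnitAddCircle) = ((y i : ℝ) : UnitAddCircle)
    rw [eq_comm, ← sub_eq_zero, ← AddCircle.coe_sub, AddCircle.coe_eq_zero_iff]
    refine ⟨m i, ?_⟩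
    rw [hm i]
    simp

lemma piT_locInj (x : R6) : ∃ U : Set R6, IsOpen U ∧ x ∈ U ∧ InjOn piT U := by
  refine ⟨Set.pi univ fun i => Ioo (x i - 1/2) (x i + 1/2),
    isOpen_set_pi finite_univ (fun i _ => isOpen_Ioo), ?_, ?_⟩
  · intro i _
    constructor <;> norm_num
  · intro y hy z hz h
    obtain ⟨m, hm⟩ := piT_eq_iff.mp h
    funext i
    have hy1 := hy i (mem_univ i)
    have hz1 := hz i (mem_univ i)
    have h3 := hm i
    have h4 : |(m i : ℝ)| < 1 := by
      rw [abs_lt]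
      constructor
      · have := hy1.2; have := hz1.1; linarith
      · have := hy1.1; have := hz1.2; linarith
    have h5 : m i = 0 := by
      have h6 : |m i| < 1 := by exact_mod_cast h4
      exact Int.abs_lt_one_iff.mp h6
    rw [h3, h5]
    simp

lemma isLocalHomeomorph_piT : IsLocalHomeomorph piT :=
  isLocalHomeomorph_of_open_of_locInj continuous_piT isOpenQuotientMap_piT.isOpenMap piT_locInj

/-- The projection `ℂ³ → T⁶`. -/
noncomputable def piV (v : V3) : T6 := piT (L.symm v)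

lemma isLocalHomeomorph_piV : IsLocalHomeomorph piV :=
  isLocalHomeomorph_piT.comp L.symm.toHomeomorph.isLocalHomeomorph

lemma piV_surjective : Function.Surjective piV := by
  intro t
  obtain ⟨x, rfl⟩ := isOpenQuotientMap_piT.surjective t
  exact ⟨L x, by simp [piV]⟩

/-- The lattice vector in `ℂ³` associated with an integer vector. -/
noncomputable def latt (m : Fin 6 → ℤ) : V3 := L fun i => (m i : ℝ)

lemma piV_eq_iff {v w : V3} : piV v = piV w ↔ ∃ m : Fin 6 → ℤ, w = v + latt m := by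
  unfold piV
  rw [piT_eq_iff]
  constructor
  · rintro ⟨m, hm⟩
    refine ⟨m, ?_⟩
    have : L.symm w = L.symm v + fun i => (m i : ℝ) := funext hm
    unfold latt
    rw [← L.apply_symm_apply w, this, map_add, L.apply_symm_apply]
  · rintro ⟨m, hm⟩
    refine ⟨m, fun i => ?_⟩
    rw [hm, map_add]
    simp [latt]

/-! ### The automorphisms of the torus -/

/-- The map induced on `ℝ⁶` (or `T⁶`) by multiplication by the unit. -/
def Aaut {G : Type*} [AddCommGroup G] : (Fin 6 → G) ≃+ (Fin 6 → G) where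
  toFun t := ![t 2, t 0 + t 2, t 1, t 5, t 3 + t 5, t 4]
  invFun t := ![t 1 - t 0, t 2, t 0, t 4 - t 3, t 5, t 3]
  left_inv t := by
    funext i
    fin_cases i <;> simp
  right_inv t := by
    funext i
    fin_cases i <;> simp
  map_add' s t := by
    funext i
    fin_cases i <;> simp <;> abel

/-- The map induced on `ℝ⁶` (or `T⁶`) by the rotation `(a, b, c) ↦ (-b, a, ic)`. -/
def Saut {G : Type*} [AddCommGroup G] : (Fin 6 → G) ≃+ (Fin 6 → G) where
  toFun t := ![-t 3, -t 4, -t 5, t 0, t 1, t 2]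
  invFun t := ![t 3, t 4, t 5, -t 0, -t 1, -t 2]
  left_inv t := by
    funext i
    fin_cases i <;> simp
  right_inv t := by
    funext i
    fin_cases i <;> simp
  map_add' s t := by
    funext i
    fin_cases i <;> simp <;> abel

lemma Aaut_piT (x : R6) : Aaut (piT x) = piT (Aaut x) := by
  funext i
  fin_cases i <;> simp [Aaut, piT]

lemma Saut_piT (x : R6) : Saut (piT x) = piT (Saut x) := by
  funext i
  fin_cases i <;> simp [Saut, piT]

lemma continuous_Aaut {G : Type*} [AddCommGroup G] [TopologicalSpace G] [IsTopologicalAddGroup G] :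
    Continuous (Aaut : (Fin 6 → G) ≃+ (Fin 6 → G)) := by
  refine continuous_pi fun i => ?_
  fin_cases i <;> simp [Aaut] <;> fun_prop

lemma continuous_Aaut_symm {G : Type*} [AddCommGroup G] [TopologicalSpace G]
    [IsTopologicalAddGroup G] :
    Continuous (Aaut : (Fin 6 → G) ≃+ (Fin 6 → G)).symm := by
  refine continuous_pi fun i => ?_
  fin_cases i <;> simp [Aaut] <;> fun_prop

lemma continuous_Saut {G : Type*} [AddCommGroup G] [TopologicalSpace G] [IsTopologicalAddGroup G] :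
    Continuous (Saut : (Fin 6 → G) ≃+ (Fin 6 → G)) := by
  refine continuous_pi fun i => ?_
  fin_cases i <;> simp [Saut] <;> fun_prop

lemma continuous_Saut_symm {G : Type*} [AddCommGroup G] [TopologicalSpace G]
    [IsTopologicalAddGroup G] :
    Continuous (Saut : (Fin 6 → G) ≃+ (Fin 6 → G)).symm := by
  refine continuous_pi fun i => ?_
  fin_cases i <;> simp [Saut] <;> fun_prop

lemma L_Aaut (x : R6) : L (Aaut x) = (lam * (L x).1, lam * (L x).2.1, rho * (L x).2.2) := by
  have h1 := lam_cube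
  have h2 : ((rho : ℂ)) ^ 3 = rho + 1 := by exact_mod_cast congrArg (fun x : ℝ => (x : ℂ)) rho_cube
  simp only [L_apply, Prod.mk.injEq]
  refine ⟨?_, ?_, ?_⟩
  · simp [Aaut]
    linear_combination (-(x 2 : ℂ)) * h1
  · simp [Aaut]
    linear_combination (-(x 5 : ℂ)) * h1
  · simp [Aaut]
    linear_combination (-(x 2 : ℂ) - (x 5 : ℂ) * Complex.I) * h2

lemma L_Saut (x : R6) : L (Saut x) = (-(L x).2.1, (L x).1, Complex.I * (L x).2.2) := by
  simp only [L_apply, Prod.mk.injEq]
  refine ⟨?_, ?_, ?_⟩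
  · simp [Saut]
    ring
  · simp [Saut]
  · simp [Saut]
    linear_combination (-(x 3 : ℂ) - x 4 * rho - x 5 * rho ^ 2) * Complex.I_sq

lemma piV_A (v : V3) : Aaut (piV v) = piV (lam * v.1, lam * v.2.1, rho * v.2.2) := by
  unfold piV
  rw [Aaut_piT]
  congr 1
  rw [ContinuousLinearEquiv.eq_symm_apply, L_Aaut, L.apply_symm_apply]

lemma piV_S (v : V3) : Saut (piV v) = piV (-v.2.1, v.1, Complex.I * v.2.2) := by
  unfold piV
  rw [Saut_piT]
  congr 1
  rw [ContinuousLinearEquiv.eq_symm_apply, L_Saut, L.apply_symm_apply]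

end Pool.Agent.H49
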