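import Pool.Agent.H49.Glue
import Pool.Agent.H49.Torus
import Pool.Agent.H49.Sphere

/-!
# The complex fourfold: coordinates and transitions
-/

open scoped Manifold ContDiff Topology ComplexConjugate OnePoint
open Set Filter

namespace Pool.Agent.H49

/-- `ℂ⁴`. -/
abbrev E4 : Type := EuclideanSpace ℂ (Fin 4)

/-- The point `(w₀, w₁, w₂, w₃)` of `ℂ⁴`. -/
noncomputable def mk4 (a b c d : ℂ) : E4 := !₂[a, b, c, d]

@[simp] lemma mk4_0 (a b c d : ℂ) : mk4 a b c d 0 = a := rfl
@[simp] lemma mk4_1 (a b c d : ℂ) : mk4 a b c d 1 = b := rfl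
@[simp] lemma mk4_2 (a b c d : ℂ) : mk4 a b c d 2 = c := rfl
@[simp] lemma mk4_3 (a b c d : ℂ) : mk4 a b c d 3 = d := rfl

lemma E4_ext {v w : E4} (h0 : v 0 = w 0) (h1 : v 1 = w 1) (h2 : v 2 = w 2) (h3 : v 3 = w 3) :
    v = w := by
  ext i
  fin_cases i <;> assumption

lemma contDiffAt_mk4 {n : ℕ∞ω} {X : Type*} [NormedAddCommGroup X] [NormedSpace ℂ X]
    {a b c d : X → ℂ} {x : X}
    (ha : ContDiffAt ℂ n a x) (hb : ContDiffAt ℂ n b x) (hc : ContDiffAt ℂ n c x)
    (hd : ContDiffAt ℂ n d x) : ContDiffAt ℂ n (fun w => mk4 (a w) (b w) (c w) (d w)) x := by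
  rw [contDiffAt_euclidean]
  intro i
  fin_cases i <;> simpa

lemma continuous_mk4 {X : Type*} [TopologicalSpace X]
    {a b c d : X → ℂ} (ha : Continuous a) (hb : Continuous b) (hc : Continuous c)
    (hd : Continuous d) : Continuous (fun w => mk4 (a w) (b w) (c w) (d w)) := by
  unfold mk4
  refine (PiLp.continuous_toLp 2 _).comp ?_
  refine continuous_pi fun i => ?_
  fin_cases i <;> simpa

lemma contDiff_coord {n : ℕ∞ω} (i : Fin 4) : ContDiff ℂ n (fun w : E4 => w i) :=
  contDiff_euclidean.1 contDiff_id i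

lemma continuous_coord (i : Fin 4) : Continuous (fun w : E4 => w i) :=
  (contDiff_coord (n := 0) i).continuous

/-- The denominator `1 + |ζ|²`. -/
noncomputable def den (z : ℂ) : ℂ := 1 + z * conj z

lemma den_eq (z : ℂ) : den z = ((1 + Complex.normSq z : ℝ) : ℂ) := by
  unfold den
  rw [Complex.mul_conj]
  push_cast
  ring

lemma den_ne_zero (z : ℂ) : den z ≠ 0 := by
  rw [den_eq]
  have := Complex.normSq_nonneg z
  exact_mod_cast (by linarith : (1 + Complex.normSq z) ≠ 0)

lemma conj_den (z : ℂ) : conj (den z) = den z := by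
  rw [den_eq, Complex.conj_ofReal]

lemma continuous_den : Continuous den := by
  unfold den
  fun_prop

/-- The function `a` on `ℂ⁴`. -/
noncomputable def aC (w : E4) : ℂ := (w 1 + w 0 * conj (w 2)) / den (w 0)
/-- The function `b` on `ℂ⁴`. -/
noncomputable def bC (w : E4) : ℂ := (conj (w 0) * w 1 - conj (w 2)) / den (w 0)

lemma continuous_aC : Continuous aC := by
  unfold aC
  refine Continuous.div ?_ (continuous_den.comp (continuous_coord 0)) (fun w => den_ne_zero _)
  have := continuous_coord 0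
  have := continuous_coord 1
  have := continuous_coord 2
  fun_prop

lemma continuous_bC : Continuous bC := by
  unfold bC
  refine Continuous.div ?_ (continuous_den.comp (continuous_coord 0)) (fun w => den_ne_zero _)
  have := continuous_coord 0
  have := continuous_coord 1
  have := continuous_coord 2
  fun_prop

lemma w1_eq (w : E4) : w 1 = aC w + bC w * w 0 := by
  have := den_ne_zero (w 0)
  unfold aC bC
  rw [div_mul_eq_mul_div, ← add_div, eq_div_iff this]
  unfold den
  ring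

lemma w2_eq (w : E4) : w 2 = -conj (bC w) + conj (aC w) * w 0 := by
  have := den_ne_zero (w 0)
  unfold aC bC
  simp only [map_div₀, conj_den, map_sub, map_mul, Complex.conj_conj, map_add]
  rw [← neg_div, div_mul_eq_mul_div, ← add_div, eq_div_iff this]
  unfold den
  ring

/-- `Ψ : ℂ⁴ → ℂ³`, `w ↦ (a, b, c)`. -/
noncomputable def Psi (w : E4) : V3 := (aC w, bC w, w 3)

/-- `Φ : ℂ³ × ℂ → ℂ⁴`. -/
noncomputable def Phi (v : V3) (z : ℂ) : E4 :=
  mk4 z (v.1 + v.2.1 * z) (-conj v.2.1 + conj v.1 * z) v.2.2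

lemma Phi_Psi (w : E4) : Phi (Psi w) (w 0) = w := by
  apply E4_ext
  · rfl
  · exact (w1_eq w).symm
  · exact (w2_eq w).symm
  · rfl

lemma aC_Phi (v : V3) (z : ℂ) : aC (Phi v z) = v.1 := by
  have := den_ne_zero z
  unfold aC Phi
  simp only [mk4_0, mk4_1, mk4_2]
  rw [div_eq_iff this]
  simp only [map_add, map_neg, map_mul, Complex.conj_conj]
  unfold den
  ring

lemma bC_Phi (v : V3) (z : ℂ) : bC (Phi v z) = v.2.1 := by
  have := den_ne_zero z
  unfold bC Phi
  simp only [mk4_0, mk4_1, mk4_2]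
  rw [div_eq_iff this]
  simp only [map_add, map_neg, map_mul, Complex.conj_conj]
  unfold den
  ring

lemma Psi_Phi (v : V3) (z : ℂ) : Psi (Phi v z) = v := by
  unfold Psi
  rw [aC_Phi, bC_Phi]
  rfl

lemma continuous_Psi : Continuous Psi :=
  continuous_aC.prodMk (continuous_bC.prodMk (continuous_coord 3))

lemma continuous_Phi : Continuous (fun p : V3 × ℂ => Phi p.1 p.2) := by
  unfold Phi
  apply continuous_mk4 <;> fun_prop

/-- The homeomorphism `ℂ⁴ ≃ ℂ³ × ℂ`. -/
noncomputable def Hhomeo : E4 ≃ₜ V3 × ℂ where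
  toFun w := (Psi w, w 0)
  invFun p := Phi p.1 p.2
  left_inv w := Phi_Psi w
  right_inv p := Prod.ext (Psi_Phi p.1 p.2) rfl
  continuous_toFun := continuous_Psi.prodMk (continuous_coord 0)
  continuous_invFun := continuous_Phi

/-- The underlying topological space of the fourfold: `T⁶ × P¹`. -/
abbrev TP : Type := T6 × P1

/-- The first parametrization. -/
noncomputable def p0 (w : E4) : TP := (piV (Psi w), ((w 0 : ℂ) : P1))

/-- The rotation automorphism of `T⁶ × P¹`. -/
noncomputable def sig : TP ≃ₜ TP where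
  toFun y := (Saut y.1, negInv y.2)
  invFun y := (Saut.symm y.1, negInv y.2)
  left_inv y := Prod.ext (Saut.symm_apply_apply _) (negInv_negInv _)
  right_inv y := Prod.ext (Saut.apply_symm_apply _) (negInv_negInv _)
  continuous_toFun := (continuous_Saut.comp continuous_fst).prodMk
    (continuous_negInv.comp continuous_snd)
  continuous_invFun := (continuous_Saut_symm.comp continuous_fst).prodMk
    (continuous_negInv.comp continuous_snd)

/-- The parametrizations. -/
noncomputable def pp (i : Bool) (w : E4) : TP := if i then sig (p0 w) else p0 w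

lemma isLocalHomeomorph_p0 : IsLocalHomeomorph p0 :=
  (isLocalHomeomorph_piV.prodMapAux isLocalHomeomorph_coe).comp Hhomeo.isLocalHomeomorph

lemma isLocalHomeomorph_pp (i : Bool) : IsLocalHomeomorph (pp i) := by
  cases i
  · exact isLocalHomeomorph_p0
  · exact sig.isLocalHomeomorph.comp isLocalHomeomorph_p0

/-- The translation transition. -/
noncomputable def th (v : V3) (w : E4) : E4 :=
  mk4 (w 0) (w 1 + (v.1 + v.2.1 * w 0)) (w 2 + (-conj v.2.1 + conj v.1 * w 0)) (w 3 + v.2.2)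

lemma th_eq (v : V3) (w : E4) : th v w = Phi (Psi w + v) (w 0) := by
  apply E4_ext
  · rfl
  · simp only [th, Phi, mk4_1, Psi, Prod.fst_add, Prod.snd_add]
    rw [w1_eq w]
    ring
  · simp only [th, Phi, mk4_2, Psi, Prod.fst_add, Prod.snd_add, map_add]
    rw [w2_eq w]
    ring
  · rfl

lemma Psi_th (v : V3) (w : E4) : Psi (th v w) = Psi w + v := by rw [th_eq, Psi_Phi]

lemma p0_th (m : Fin 6 → ℤ) (w : E4) : p0 (th (latt m) w) = p0 w := by
  unfold p0
  rw [Psi_th]
  refine Prod.ext ?_ rfl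
  exact (piV_eq_iff.mpr ⟨m, rfl⟩).symm

lemma p0_eq_iff {w w' : E4} : p0 w = p0 w' ↔ ∃ m : Fin 6 → ℤ, w' = th (latt m) w := by
  constructor
  · intro h
    have h1 : piV (Psi w) = piV (Psi w') := congrArg Prod.fst h
    have h2 : ((w 0 : ℂ) : P1) = ((w' 0 : ℂ) : P1) := congrArg Prod.snd h
    rw [OnePoint.coe_eq_coe] at h2
    obtain ⟨m, hm⟩ := piV_eq_iff.mp h1
    refine ⟨m, ?_⟩
    rw [th_eq, ← hm, h2, Phi_Psi]
  · rintro ⟨m, rfl⟩
    exact (p0_th m w).symm

/-- The transition over `ζ ↦ -1/ζ`. -/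
noncomputable def ta (w : E4) : E4 :=
  mk4 (-(w 0)⁻¹) (-(w 1) / w 0) (-(w 2) / w 0) (Complex.I * w 3)

/-- The inverse transition over `ζ ↦ -1/ζ`. -/
noncomputable def ta' (w : E4) : E4 :=
  mk4 (-(w 0)⁻¹) (w 1 / w 0) (w 2 / w 0) (-Complex.I * w 3)

lemma ta_ta' {w : E4} (h : w 0 ≠ 0) : ta (ta' w) = w := by
  apply E4_ext
  · simp [ta, ta']
  · simp [ta, ta', h]
  · simp [ta, ta', h]
  · simp only [ta, ta', mk4_3]
    linear_combination (-(w 3)) * Complex.I_sq

lemma ta'_zero_ne {w : E4} (h : w 0 ≠ 0) : ta' w 0 ≠ 0 := by simpa [ta'] using h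

lemma ta_eq {w : E4} (h : w 0 ≠ 0) :
    ta w = Phi (-(Psi w).2.1, (Psi w).1, Complex.I * (Psi w).2.2) (-(w 0)⁻¹) := by
  apply E4_ext
  · rfl
  · simp only [ta, Phi, mk4_1, Psi]
    conv_lhs => rw [w1_eq w]
    field_simp
    ring
  · simp only [ta, Phi, mk4_2, Psi, map_neg]
    conv_lhs => rw [w2_eq w]
    field_simp
    ring
  · rfl

lemma sig_p0 {w : E4} (h : w 0 ≠ 0) : sig (p0 w) = p0 (ta w) := by
  rw [ta_eq h]
  unfold p0
  rw [Psi_Phi]
  refine Prod.ext ?_ ?_
  · exact piV_S _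
  · exact negInv_coe h

end Pool.Agent.H49
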