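import Pool.Agent.H49.Four1

/-!
# The complex fourfold: transitions and gluing data
-/

open scoped Manifold ContDiff Topology ComplexConjugate OnePoint
open Set Filter

namespace Pool.Agent.H49

/-- `α(x, v) = v₁ - b(x) v₀`. -/
noncomputable def al (x v : E4) : ℂ := v 1 - bC x * v 0
/-- `β(x, v) = v₂ - conj a(x) v₀`. -/
noncomputable def be (x v : E4) : ℂ := v 2 - conj (aC x) * v 0
/-- `r(x) = 1 + |ζ|²`. -/
noncomputable def rr (x : E4) : ℝ := 1 + Complex.normSq (x 0)

lemma rr_pos (x : E4) : 0 < rr x := by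
  unfold rr
  have := Complex.normSq_nonneg (x 0)
  linarith

/-- The transitions we allow, with their effect on the adapted coordinates. -/
structure Good (γ : E4 → E4) (x : E4) : Prop where
  smooth : ContDiffAt ℂ ω γ x
  effect : ∃ u1 u3 u0 : ℂ, u1 ≠ 0 ∧ u3 ≠ 0 ∧ u0 ≠ 0 ∧
    (∀ v, al (γ x) (fderiv ℂ γ x v) = u1 * al x v ∧ be (γ x) (fderiv ℂ γ x v) = u1 * be x v ∧
      (fderiv ℂ γ x v) 3 = u3 * v 3 ∧ (fderiv ℂ γ x v) 0 = u0 * v 0) ∧
    Complex.normSq u1 * rr x = rr (γ x) ∧ Complex.normSq u3 = 1 ∧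
    Complex.normSq u0 * rr x ^ 2 = rr (γ x) ^ 2

lemma Good.differentiableAt {γ : E4 → E4} {x : E4} (h : Good γ x) : DifferentiableAt ℂ γ x :=
  h.smooth.differentiableAt (by simp)

lemma Good.comp {γ δ : E4 → E4} {x : E4} (hδ : Good δ (γ x)) (hγ : Good γ x) :
    Good (δ ∘ γ) x := by
  refine ⟨hδ.smooth.comp x hγ.smooth, ?_⟩
  obtain ⟨u1, u3, u0, h1, h3, h0, hv, n1, n3, n0⟩ := hγ.effect
  obtain ⟨t1, t3, t0, k1, k3, k0, kv, l1, l3, l0⟩ := hδ.effect
  refine ⟨t1 * u1, t3 * u3, t0 * u0, mul_ne_zero k1 h1, mul_ne_zero k3 h3, mul_ne_zero k0 h0,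
    ?_, ?_, ?_, ?_⟩
  · intro v
    have hc : fderiv ℂ (δ ∘ γ) x v = fderiv ℂ δ (γ x) (fderiv ℂ γ x v) := by
      rw [fderiv_comp x hδ.differentiableAt hγ.differentiableAt]
      rfl
    rw [hc]
    obtain ⟨a1, a2, a3, a4⟩ := hv v
    obtain ⟨b1, b2, b3, b4⟩ := kv (fderiv ℂ γ x v)
    simp only [Function.comp]
    rw [b1, b2, b3, b4, a1, a2, a3, a4]
    refine ⟨by ring, by ring, by ring, by ring⟩
  · rw [Complex.normSq_mul, mul_assoc, n1, l1]; rfl
  · rw [Complex.normSq_mul, n3, l3]; norm_num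
  · rw [Complex.normSq_mul, mul_assoc, n0, l0]; rfl

/-- Computing a coordinate of a derivative through a curve. -/
lemma fderiv_coord {γ : E4 → E4} {x h : E4} (hγ : DifferentiableAt ℂ γ x) (i : Fin 4) {c : ℂ}
    (hc : HasDerivAt (fun t : ℂ => γ (x + t • h) i) c 0) : (fderiv ℂ γ x h) i = c := by
  have h1 : HasDerivAt (fun t : ℂ => x + t • h) h 0 := by
    have := ((hasDerivAt_id (0 : ℂ)).smul_const h).const_add x
    simpa using this
  have h2 : HasFDerivAt γ (fderiv ℂ γ x) (x + (0 : ℂ) • h) := by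
    simpa using hγ.hasFDerivAt
  have h3 : HasDerivAt (fun t : ℂ => γ (x + t • h)) (fderiv ℂ γ x h) 0 :=
    h2.comp_hasDerivAt (0 : ℂ) h1
  have h4 : HasDerivAt (fun t : ℂ => γ (x + t • h) i) ((fderiv ℂ γ x h) i) 0 :=
    ((EuclideanSpace.proj (𝕜 := ℂ) i : E4 →L[ℂ] ℂ).hasFDerivAt.comp_hasDerivAt (0 : ℂ) h3)
  exact h4.unique hc

lemma hasDerivAt_coord (x h : E4) (i : Fin 4) :
    HasDerivAt (fun t : ℂ => (x + t • h) i) (h i) 0 := by
  have : HasDerivAt (fun t : ℂ => x i + t * h i) (1 * h i) 0 :=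
    ((hasDerivAt_id (0 : ℂ)).mul_const (h i)).const_add (x i)
  rw [one_mul] at this
  exact this

lemma contDiffAt_th (v : V3) (x : E4) : ContDiffAt ℂ ω (th v) x := by
  have h0 := (contDiff_coord (n := ω) 0).contDiffAt (x := x)
  have h1 := (contDiff_coord (n := ω) 1).contDiffAt (x := x)
  have h2 := (contDiff_coord (n := ω) 2).contDiffAt (x := x)
  have h3 := (contDiff_coord (n := ω) 3).contDiffAt (x := x)
  apply contDiffAt_mk4 h0
  · exact h1.add (contDiffAt_const.add (contDiffAt_const.mul h0))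
  · exact h2.add (contDiffAt_const.add (contDiffAt_const.mul h0))
  · exact h3.add contDiffAt_const

lemma good_th (v : V3) (x : E4) : Good (th v) x := by
  refine ⟨contDiffAt_th v x, 1, 1, 1, one_ne_zero, one_ne_zero, one_ne_zero, ?_, ?_, ?_, ?_⟩
  · intro h
    have hd : DifferentiableAt ℂ (th v) x := (contDiffAt_th v x).differentiableAt (by simp)
    have k0 := hasDerivAt_coord x h 0
    have k1 := hasDerivAt_coord x h 1
    have k2 := hasDerivAt_coord x h 2
    have k3 := hasDerivAt_coord x h 3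
    have e0 : (fderiv ℂ (th v) x h) 0 = h 0 := fderiv_coord hd 0 k0
    have e1 : (fderiv ℂ (th v) x h) 1 = h 1 + v.2.1 * h 0 := by
      apply fderiv_coord hd 1
      exact k1.add ((k0.const_mul v.2.1).const_add v.1)
    have e2 : (fderiv ℂ (th v) x h) 2 = h 2 + conj v.1 * h 0 := by
      apply fderiv_coord hd 2
      exact k2.add ((k0.const_mul (conj v.1)).const_add (-conj v.2.1))
    have e3 : (fderiv ℂ (th v) x h) 3 = h 3 := fderiv_coord hd 3 (k3.add_const v.2.2)
    have ha : aC (th v x) = aC x + v.1 := congrArg Prod.fst (Psi_th v x)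
    have hb : bC (th v x) = bC x + v.2.1 := congrArg (fun p => p.2.1) (Psi_th v x)
    unfold al be
    rw [e0, e1, e2, e3, ha, hb, map_add]
    refine ⟨by ring, by ring, by ring, by ring⟩
  · simp [rr, th]
  · simp
  · simp [rr, th]

lemma Psi_ta {x : E4} (hx : x 0 ≠ 0) : Psi (ta x) = (-(Psi x).2.1, (Psi x).1,
    Complex.I * (Psi x).2.2) := by rw [ta_eq hx, Psi_Phi]

lemma Psi_ta' {x : E4} (hx : x 0 ≠ 0) : Psi (ta' x) = ((Psi x).2.1, -(Psi x).1,
    -Complex.I * (Psi x).2.2) := by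
  have h := Psi_ta (ta'_zero_ne hx)
  rw [ta_ta' hx] at h
  have h1 := congrArg Prod.fst h
  have h2 := congrArg (fun p => p.2.1) h
  have h3 := congrArg (fun p => p.2.2) h
  simp only at h1 h2 h3
  refine Prod.ext ?_ (Prod.ext ?_ ?_)
  · simp [h2]
  · simp [h1]
  · simp only
    rw [h3]
    linear_combination ((Psi (ta' x)).2.2) * Complex.I_sq

lemma contDiffAt_ta {x : E4} (hx : x 0 ≠ 0) : ContDiffAt ℂ ω ta x := by
  have h0 := (contDiff_coord (n := ω) 0).contDiffAt (x := x)
  have h1 := (contDiff_coord (n := ω) 1).contDiffAt (x := x)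
  have h2 := (contDiff_coord (n := ω) 2).contDiffAt (x := x)
  have h3 := (contDiff_coord (n := ω) 3).contDiffAt (x := x)
  apply contDiffAt_mk4
  · exact (h0.inv hx).neg
  · exact h1.neg.div h0 hx
  · exact h2.neg.div h0 hx
  · exact contDiffAt_const.mul h3

lemma contDiffAt_ta' {x : E4} (hx : x 0 ≠ 0) : ContDiffAt ℂ ω ta' x := by
  have h0 := (contDiff_coord (n := ω) 0).contDiffAt (x := x)
  have h1 := (contDiff_coord (n := ω) 1).contDiffAt (x := x)
  have h2 := (contDiff_coord (n := ω) 2).contDiffAt (x := x)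
  have h3 := (contDiff_coord (n := ω) 3).contDiffAt (x := x)
  apply contDiffAt_mk4
  · exact (h0.inv hx).neg
  · exact h1.div h0 hx
  · exact h2.div h0 hx
  · exact contDiffAt_const.mul h3

lemma rr_inv {x : E4} (hx : x 0 ≠ 0) :
    1 + Complex.normSq (-(x 0)⁻¹) = (Complex.normSq (x 0))⁻¹ * rr x := by
  have : Complex.normSq (x 0) ≠ 0 := by simpa using hx
  unfold rr
  rw [Complex.normSq_neg, Complex.normSq_inv]
  field_simp
  ring

lemma good_ta {x : E4} (hx : x 0 ≠ 0) : Good ta x := by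
  refine ⟨contDiffAt_ta hx, -(x 0)⁻¹, Complex.I, ((x 0) ^ 2)⁻¹, ?_, Complex.I_ne_zero, ?_, ?_,
    ?_, ?_, ?_⟩
  · simpa using hx
  · simpa using hx
  · intro h
    have hd : DifferentiableAt ℂ ta x := (contDiffAt_ta hx).differentiableAt (by simp)
    have k0 := hasDerivAt_coord x h 0
    have k1 := hasDerivAt_coord x h 1
    have k2 := hasDerivAt_coord x h 2
    have k3 := hasDerivAt_coord x h 3
    have hx0 : (x + (0 : ℂ) • h) 0 ≠ 0 := by simpa using hx
    have e0 : (fderiv ℂ ta x h) 0 = h 0 / (x 0) ^ 2 := by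
      apply fderiv_coord hd 0
      have := (k0.inv hx0).neg
      refine this.congr_deriv ?_
      simp
      ring
    have e1 : (fderiv ℂ ta x h) 1 = (-(h 1) * x 0 + x 1 * h 0) / (x 0) ^ 2 := by
      apply fderiv_coord hd 1
      have := k1.neg.div k0 hx0
      refine this.congr_deriv ?_
      simp
    have e2 : (fderiv ℂ ta x h) 2 = (-(h 2) * x 0 + x 2 * h 0) / (x 0) ^ 2 := by
      apply fderiv_coord hd 2
      have := k2.neg.div k0 hx0
      refine this.congr_deriv ?_
      simp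
    have e3 : (fderiv ℂ ta x h) 3 = Complex.I * h 3 := fderiv_coord hd 3 (k3.const_mul _)
    have ha : aC (ta x) = -bC x := congrArg Prod.fst (Psi_ta hx)
    have hb : bC (ta x) = aC x := congrArg (fun p => p.2.1) (Psi_ta hx)
    unfold al be
    rw [e0, e1, e2, e3, ha, hb, map_neg, w1_eq x, w2_eq x]
    refine ⟨?_, ?_, ?_, ?_⟩
    · field_simp
      ring
    · field_simp
      ring
    · ring
    · field_simp
  · have := rr_inv hx
    unfold rr at this ⊢
    simp only [ta, mk4_0]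
    rw [this, Complex.normSq_neg, Complex.normSq_inv]
  · simp
  · have := rr_inv hx
    have h2 : rr (ta x) = (Complex.normSq (x 0))⁻¹ * rr x := by
      rw [← this]; rfl
    rw [h2, Complex.normSq_inv, map_pow]
    ring

lemma good_ta' {x : E4} (hx : x 0 ≠ 0) : Good ta' x := by
  refine ⟨contDiffAt_ta' hx, (x 0)⁻¹, -Complex.I, ((x 0) ^ 2)⁻¹, ?_,
    neg_ne_zero.mpr Complex.I_ne_zero, ?_, ?_, ?_, ?_, ?_⟩
  · simpa using hx
  · simpa using hx
  · intro h
    have hd : DifferentiableAt ℂ ta' x := (contDiffAt_ta' hx).differentiableAt (by simp)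
    have k0 := hasDerivAt_coord x h 0
    have k1 := hasDerivAt_coord x h 1
    have k2 := hasDerivAt_coord x h 2
    have k3 := hasDerivAt_coord x h 3
    have hx0 : (x + (0 : ℂ) • h) 0 ≠ 0 := by simpa using hx
    have e0 : (fderiv ℂ ta' x h) 0 = h 0 / (x 0) ^ 2 := by
      apply fderiv_coord hd 0
      have := (k0.inv hx0).neg
      refine this.congr_deriv ?_
      simp
      ring
    have e1 : (fderiv ℂ ta' x h) 1 = (h 1 * x 0 - x 1 * h 0) / (x 0) ^ 2 := by
      apply fderiv_coord hd 1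
      have := k1.div k0 hx0
      refine this.congr_deriv ?_
      simp
    have e2 : (fderiv ℂ ta' x h) 2 = (h 2 * x 0 - x 2 * h 0) / (x 0) ^ 2 := by
      apply fderiv_coord hd 2
      have := k2.div k0 hx0
      refine this.congr_deriv ?_
      simp
    have e3 : (fderiv ℂ ta' x h) 3 = -Complex.I * h 3 := fderiv_coord hd 3 (k3.const_mul _)
    have ha : aC (ta' x) = bC x := congrArg Prod.fst (Psi_ta' hx)
    have hb : bC (ta' x) = -aC x := congrArg (fun p => p.2.1) (Psi_ta' hx)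
    unfold al be
    rw [e0, e1, e2, e3, ha, hb, w1_eq x, w2_eq x]
    refine ⟨?_, ?_, ?_, ?_⟩
    · field_simp
      ring
    · field_simp
      ring
    · ring
    · field_simp
  · have := rr_inv hx
    unfold rr at this ⊢
    simp only [ta', mk4_0]
    rw [this, Complex.normSq_inv]
  · simp
  · have := rr_inv hx
    have h2 : rr (ta' x) = (Complex.normSq (x 0))⁻¹ * rr x := by
      rw [← this]; rfl
    rw [h2, Complex.normSq_inv, map_pow]
    ring

/-- All transitions between the parametrizations are good. -/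
lemma good_trans (i j : Bool) (x x' : E4) (h : pp i x = pp j x') :
    ∃ γ : E4 → E4, Good γ x ∧ γ x = x' ∧ ∀ᶠ z in 𝓝 x, pp j (γ z) = pp i z := by
  have hopen : ∀ {x : E4}, x 0 ≠ 0 → ∀ᶠ z : E4 in 𝓝 x, z 0 ≠ 0 := fun {x} hx =>
    (continuous_coord 0).continuousAt.eventually_ne hx
  cases i <;> cases j
  · change p0 x = p0 x' at h
    obtain ⟨m, hm⟩ := p0_eq_iff.mp h
    exact ⟨th (latt m), good_th _ _, hm.symm, Eventually.of_forall fun z => p0_th m z⟩
  · change p0 x = sig (p0 x') at h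
    have hx0 : x' 0 ≠ 0 := by
      intro h0
      have h2 : ((x 0 : ℂ) : P1) = negInv ((x' 0 : ℂ) : P1) := congrArg Prod.snd h
      rw [h0, negInv_zero] at h2
      exact OnePoint.coe_ne_infty _ h2
    have hx : x 0 ≠ 0 := by
      have h2 : ((x 0 : ℂ) : P1) = negInv ((x' 0 : ℂ) : P1) := congrArg Prod.snd h
      rw [negInv_coe hx0, OnePoint.coe_eq_coe] at h2
      rw [h2]
      simpa using hx0
    have h3 : p0 (ta' x) = p0 x' := by
      apply sig.injective
      rw [sig_p0 (ta'_zero_ne hx), ta_ta' hx, h]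
    obtain ⟨m, hm⟩ := p0_eq_iff.mp h3
    refine ⟨th (latt m) ∘ ta', (good_th _ _).comp (good_ta' hx), hm.symm, ?_⟩
    filter_upwards [hopen hx] with z hz
    change sig (p0 (th (latt m) (ta' z))) = p0 z
    rw [p0_th, sig_p0 (ta'_zero_ne hz), ta_ta' hz]
  · change sig (p0 x) = p0 x' at h
    have hx : x 0 ≠ 0 := by
      intro h0
      have h2 : negInv ((x 0 : ℂ) : P1) = ((x' 0 : ℂ) : P1) := congrArg Prod.snd h
      rw [h0, negInv_zero] at h2
      exact OnePoint.infty_ne_coe _ h2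
    rw [sig_p0 hx] at h
    obtain ⟨m, hm⟩ := p0_eq_iff.mp h
    refine ⟨th (latt m) ∘ ta, (good_th _ _).comp (good_ta hx), hm.symm, ?_⟩
    filter_upwards [hopen hx] with z hz
    change p0 (th (latt m) (ta z)) = sig (p0 z)
    rw [p0_th, sig_p0 hz]
  · change sig (p0 x) = sig (p0 x') at h
    obtain ⟨m, hm⟩ := p0_eq_iff.mp (sig.injective h)
    refine ⟨th (latt m), good_th _ _, hm.symm, Eventually.of_forall fun z => ?_⟩
    change sig (p0 (th (latt m) z)) = sig (p0 z)
    rw [p0_th]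

lemma pp_surj (y : TP) : ∃ i x, pp i x = y := by
  obtain ⟨t, s⟩ := y
  induction s using OnePoint.rec with
  | infty =>
    obtain ⟨v, hv⟩ := piV_surjective (Saut.symm t)
    refine ⟨true, Phi v 0, ?_⟩
    change sig (p0 (Phi v 0)) = _
    rw [← sig.apply_symm_apply (t, ∞)]
    congr 1
    unfold p0
    rw [Psi_Phi, hv]
    refine Prod.ext rfl ?_
    exact negInv_infty.symm
  | coe z =>
    obtain ⟨v, hv⟩ := piV_surjective t
    refine ⟨false, Phi v z, ?_⟩
    change p0 (Phi v z) = _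
    unfold p0
    rw [Psi_Phi, hv]
    rfl

/-- The gluing data of the fourfold. -/
noncomputable def DD : Glue Bool E4 TP where
  p := pp
  loc := isLocalHomeomorph_pp
  surj := pp_surj
  trans i j x x' h := by
    obtain ⟨γ, h1, h2, h3⟩ := good_trans i j x x' h
    exact ⟨γ, h1.smooth, h2, h3⟩

/-- The complex fourfold. -/
abbrev M4 : Type := DD.Space

end Pool.Agent.H49
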