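import Mathlib

/-!
# Fibered holomorphic partially hyperbolic diffeomorphisms: definitions

All notions are stated for a complex manifold `M` modelled on a (finite dimensional) complex
normed space `E`, with Mathlib's complex analytic manifold structure.
-/

open scoped Manifold ContDiff Topology
open Set

namespace Pool.Agent.H49.PH

section Defs

variable (E : Type) [NormedAddCommGroup E] [NormedSpace ℂ E]
  (M : Type) [TopologicalSpace M] [ChartedSpace E M]

/-- A complex tangent distribution on `M`: a complex subspace of every tangent space. -/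
abbrev Distribution : Type := ∀ x : M, Submodule ℂ (TangentSpace 𝓘(ℂ, E) x)

/-- A (not necessarily continuous) vector field on `M`. -/
abbrev VField : Type := ∀ x : M, TangentSpace 𝓘(ℂ, E) x

variable {E M}

/-- A vector field as a section of the tangent bundle. -/
def VField.sec (X : VField E M) (x : M) : TangentBundle 𝓘(ℂ, E) M := ⟨x, X x⟩

variable [IsManifold 𝓘(ℂ, E) ω M]

/-- `D` is a continuous complex subbundle of `TM`: near every point it has a continuous frame. -/
def IsContinuousSubbundle (D : Distribution E M) : Prop :=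
  ∀ x₀ : M, ∃ (U : Set M) (r : ℕ) (X : Fin r → VField E M), IsOpen U ∧ x₀ ∈ U ∧
    (∀ i, ContinuousOn (X i).sec U) ∧
    ∀ x ∈ U, LinearIndependent ℂ (fun i => X i x) ∧ Submodule.span ℂ (range fun i => X i x) = D x

/-- `D` is holomorphic near `x₀`: on a neighbourhood of `x₀` it is spanned by holomorphic
vector fields (complex differentiable sections of the tangent bundle). -/
def IsHolomorphicAt (D : Distribution E M) (x₀ : M) : Prop :=
  ∃ (U : Set M) (r : ℕ) (X : Fin r → VField E M), IsOpen U ∧ x₀ ∈ U ∧
    (∀ i, MDifferentiableOn 𝓘(ℂ, E) 𝓘(ℂ, E).tangent (X i).sec U) ∧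
    ∀ x ∈ U, Submodule.span ℂ (range fun i => X i x) = D x

/-- `D` is a holomorphic distribution. -/
def IsHolomorphicDistribution (D : Distribution E M) : Prop := ∀ x : M, IsHolomorphicAt D x

variable (E M) in
/-- A Riemannian metric on `M`: a real inner product on every tangent space, depending
continuously on the point. -/
structure RiemannianMetric where
  /-- the inner product -/
  inner : ∀ x : M, TangentSpace 𝓘(ℂ, E) x → TangentSpace 𝓘(ℂ, E) x → ℝ
  symm : ∀ x v w, inner x v w = inner x w v
  add_left : ∀ x u v w, inner x (u + v) w = inner x u w + inner x v w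
  smul_left : ∀ x (r : ℝ) v w, inner x ((r : ℂ) • v) w = r * inner x v w
  pos : ∀ x v, v ≠ 0 → 0 < inner x v v
  cont : Continuous fun v : TangentBundle 𝓘(ℂ, E) M => inner v.1 v.2 v.2

/-- The length of the image `Df^k v` of a tangent vector `v` at `x` under the derivative of the
`k`-th iterate of `f`; for `k = 0` it is the length of `v`. -/
noncomputable def lengthImage (g : RiemannianMetric E M) (f : M → M) (k : ℕ) (x : M)
    (v : TangentSpace 𝓘(ℂ, E) x) : ℝ :=
  Real.sqrt (g.inner (f^[k] x) (mfderiv 𝓘(ℂ, E) 𝓘(ℂ, E) f^[k] x v)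
    (mfderiv 𝓘(ℂ, E) 𝓘(ℂ, E) f^[k] x v))

/-- `v` is a unit vector. -/
def IsUnitVector (g : RiemannianMetric E M) (x : M) (v : TangentSpace 𝓘(ℂ, E) x) : Prop :=
  g.inner x v v = 1

/-- The inequalities of partial hyperbolicity for the `k`-th iterate of `f` with respect to the
metric `g`. All unit spheres of the `E^σ(x)` are compact, so the pointwise inequalities below say
`‖Df^k|E^s(x)‖ < 1 < m(Df^k|E^u(x))`, `‖Df^k|E^s(x)‖ < m(Df^k|E^c(x))` and
`‖Df^k|E^c(x)‖ < m(Df^k|E^u(x))`. -/
def DominatedAtTime (g : RiemannianMetric E M) (f : M → M) (Es Ec Eu : Distribution E M)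
    (k : ℕ) : Prop :=
  ∀ x : M,
    (∀ u ∈ Es x, IsUnitVector g x u → lengthImage g f k x u < 1) ∧
    (∀ w ∈ Eu x, IsUnitVector g x w → 1 < lengthImage g f k x w) ∧
    (∀ u ∈ Es x, ∀ v ∈ Ec x, IsUnitVector g x u → IsUnitVector g x v →
      lengthImage g f k x u < lengthImage g f k x v) ∧
    (∀ v ∈ Ec x, ∀ w ∈ Eu x, IsUnitVector g x v → IsUnitVector g x w →
      lengthImage g f k x v < lengthImage g f k x w)

/-- `D` is invariant under the derivative of `f`. -/
def IsInvariant (f : M → M) (D : Distribution E M) : Prop :=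
  ∀ x, (D x).map (mfderiv 𝓘(ℂ, E) 𝓘(ℂ, E) f x).toLinearMap = D (f x)

/-- `f` is a (holomorphic) partially hyperbolic diffeomorphism of the complex manifold `M` with
splitting `TM = E^s ⊕ E^c ⊕ E^u`: the three bundles are nonzero continuous complex subbundles,
`Df`-invariant, and for every Riemannian metric (and there is one) some iterate `f^k`, `k ≥ 1`,
satisfies the inequalities of partial hyperbolicity. -/
structure IsPartiallyHyperbolic (f : M → M) (Es Ec Eu : Distribution E M) : Prop where
  continuous_s : IsContinuousSubbundle Es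
  continuous_c : IsContinuousSubbundle Ec
  continuous_u : IsContinuousSubbundle Eu
  nonzero : ∀ x, Es x ≠ ⊥ ∧ Ec x ≠ ⊥ ∧ Eu x ≠ ⊥
  splitting : ∀ x, ∀ v : TangentSpace 𝓘(ℂ, E) x,
    ∃! p : Es x × Ec x × Eu x, v = (p.1 : TangentSpace 𝓘(ℂ, E) x) + p.2.1 + p.2.2
  invariant_s : IsInvariant f Es
  invariant_c : IsInvariant f Ec
  invariant_u : IsInvariant f Eu
  metric : Nonempty (RiemannianMetric E M)
  dominated : ∀ g : RiemannianMetric E M, ∃ k : ℕ, 1 ≤ k ∧ DominatedAtTime g f Es Ec Eu k

/-- `e` is a foliation chart for the partition of `M` into the fibres of `π : M → B`, with plaques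
tangent to `D`: a homeomorphism from an open subset of `P × B` onto an open subset of `M` with
`π (e (z, b)) = b`, whose plaques `z ↦ e (z, b)` are holomorphic immersions with tangent
spaces `D`. Here `P` is a complex normed space. -/
def IsFoliationChart {P : Type} [NormedAddCommGroup P] [NormedSpace ℂ P]
    {B : Type} [TopologicalSpace B] (D : Distribution E M) (π : M → B)
    (e : OpenPartialHomeomorph (P × B) M) : Prop :=
  ∀ z b, (z, b) ∈ e.source →
    π (e (z, b)) = b ∧
    MDifferentiableAt 𝓘(ℂ, P) 𝓘(ℂ, E) (fun z => e (z, b)) z ∧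
    Function.Injective (mfderiv 𝓘(ℂ, P) 𝓘(ℂ, E) (fun z => e (z, b)) z) ∧
    LinearMap.range (mfderiv 𝓘(ℂ, P) 𝓘(ℂ, E) (fun z => e (z, b)) z).toLinearMap = D (e (z, b))

/-- The distribution `D` is tangent to an `f`-invariant foliation of `M` with compact leaves which
is a topological fibration of `M`: there are a topological manifold `B` (the leaf space, Hausdorff
and second countable, modelled on `ℝᵈ`) and a quotient map `π : M → B`, locally trivial with
compact connected fibre `F`, whose fibres are the leaves; `f` maps leaves to leaves; and near every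
point there is a foliation chart with plaques tangent to `D`. -/
def IsFibered (f : M → M) (D : Distribution E M) : Prop :=
  ∃ (B : Type) (_ : TopologicalSpace B) (d : ℕ) (_ : ChartedSpace (Fin d → ℝ) B)
    (F : Type) (_ : TopologicalSpace F) (P : Type) (_ : NormedAddCommGroup P)
    (_ : NormedSpace ℂ P) (π : M → B) (h : B → B),
    T2Space B ∧ SecondCountableTopology B ∧ CompactSpace F ∧ ConnectedSpace F ∧
    Topology.IsQuotientMap π ∧
    (∀ b : B, ∃ τ : Bundle.Trivialization F π, b ∈ τ.baseSet) ∧
    (∀ x, π (f x) = h (π x)) ∧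
    ∀ x₀ : M, ∃ e : OpenPartialHomeomorph (P × B) M, x₀ ∈ e.target ∧ IsFoliationChart D π e

end Defs

end Pool.Agent.H49.PH
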