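import Pool.Agent.H49.Glue
import Pool.Agent.H49.PHDefs

/-!
# Distributions, metrics and maps on glued spaces
-/

open scoped Manifold ContDiff Topology
open Set Filter

namespace Pool.Agent.H49

namespace Glue

variable {ι E M : Type} [NormedAddCommGroup E] [NormedSpace ℂ E] [TopologicalSpace M]
variable (D : Glue ι E M)

/-! ### Maps -/

/-- A self-map which lifts to all parametrizations is analytic. -/
lemma contMDiff_of_lift {F : D.Space → D.Space} {Fh : E → E}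
    (hF : ∀ i x, F (D.q i x) = D.q i (Fh x)) (h : ContDiff ℂ ω Fh) :
    ContMDiff 𝓘(ℂ, E) 𝓘(ℂ, E) ω F := by
  intro y
  obtain ⟨i, x, rfl⟩ := D.surj_q y
  have h1 : ContMDiffAt 𝓘(ℂ, E) 𝓘(ℂ, E) ω (D.q i ∘ Fh ∘ D.inv i x) (D.q i x) := by
    refine ContMDiffAt.comp _ (D.contMDiff_q i _) ?_
    refine ContMDiffAt.comp _ (h.contMDiff _) ?_
    exact D.contMDiffAt_inv (D.q_mem_inv_source i x)
  refine h1.congr_of_eventuallyEq ?_
  filter_upwards [(D.inv i x).open_source.mem_nhds (D.q_mem_inv_source i x)] with z hz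
  have h2 := hF i (D.inv i x z)
  rw [D.q_inv hz] at h2
  exact h2

/-- The derivative of a map which lifts. -/
lemma mfderiv_of_lift {F : D.Space → D.Space} {Fh : E → E}
    (hF : ∀ i x, F (D.q i x) = D.q i (Fh x)) (h : ContDiff ℂ ω Fh) (i : ι) (x v : E) :
    (mfderiv 𝓘(ℂ, E) 𝓘(ℂ, E) F (D.q i x) (D.dqE i x v : E) : E) =
      D.dqE i (Fh x) (fderiv ℂ Fh x v) := by
  have hF' : F ∘ D.q i = D.q i ∘ Fh := funext (hF i)
  have h1 : MDifferentiableAt 𝓘(ℂ, E) 𝓘(ℂ, E) F (D.q i x) :=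
    (D.contMDiff_of_lift hF h _).mdifferentiableAt (by simp)
  have h2 := mfderiv_comp x h1 (D.mdifferentiableAt_q i x)
  have h3 : MDifferentiableAt 𝓘(ℂ, E) 𝓘(ℂ, E) Fh x :=
    (h.differentiable (by simp) x).mdifferentiableAt
  have h4 := mfderiv_comp x (D.mdifferentiableAt_q i (Fh x)) h3
  rw [hF'] at h2
  rw [h4] at h2
  have h5 : mfderiv 𝓘(ℂ, E) 𝓘(ℂ, E) Fh x = fderiv ℂ Fh x := mfderiv_eq_fderiv
  rw [h5] at h2
  exact (DFunLike.congr_fun h2 v).symm

lemma iterate_lift {F : D.Space → D.Space} {Fh : E → E}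
    (hF : ∀ i x, F (D.q i x) = D.q i (Fh x)) (k : ℕ) (i : ι) (x : E) :
    F^[k] (D.q i x) = D.q i (Fh^[k] x) := by
  induction k generalizing x with
  | zero => rfl
  | succ k ih => rw [Function.iterate_succ_apply, hF, ih, Function.iterate_succ_apply]

omit [NormedSpace ℂ E] in
lemma contDiff_iterate_aux [NormedSpace ℂ E] {Fh : E → E} (h : ContDiff ℂ ω Fh) (k : ℕ) :
    ContDiff ℂ ω Fh^[k] := by
  induction k with
  | zero => exact contDiff_id
  | succ k ih =>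
    rw [Function.iterate_succ]
    exact ih.comp h

lemma mfderiv_iterate_of_lift {F : D.Space → D.Space} {Fh : E → E}
    (hF : ∀ i x, F (D.q i x) = D.q i (Fh x)) (h : ContDiff ℂ ω Fh) (k : ℕ) (i : ι) (x v : E) :
    (mfderiv 𝓘(ℂ, E) 𝓘(ℂ, E) F^[k] (D.q i x) (D.dqE i x v : E) : E) =
      D.dqE i (Fh^[k] x) (fderiv ℂ Fh^[k] x v) :=
  D.mfderiv_of_lift (D.iterate_lift hF k) (contDiff_iterate_aux h k) i x v

/-- Invariance of a pushed distribution under a map which lifts. -/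
lemma map_push_of_lift {F : D.Space → D.Space} {Fh : E → E}
    (hF : ∀ i x, F (D.q i x) = D.q i (Fh x)) (h : ContDiff ℂ ω Fh)
    {d : E → Submodule ℂ E} (hd : D.InvDist d)
    (hinv : ∀ x, (d x).map (fderiv ℂ Fh x).toLinearMap = d (Fh x)) (y : D.Space) :
    (D.push d y).map (mfderiv 𝓘(ℂ, E) 𝓘(ℂ, E) F y).toLinearMap = D.push d (F y) := by
  obtain ⟨i, x, rfl⟩ := D.surj_q y
  rw [hF, D.push_q hd, D.push_q hd, ← hinv]
  ext v
  simp only [Submodule.mem_map]
  constructor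
  · rintro ⟨w, ⟨u, hu, rfl⟩, rfl⟩
    exact ⟨_, ⟨u, hu, rfl⟩, (D.mfderiv_of_lift hF h i x u).symm⟩
  · rintro ⟨w, ⟨u, hu, rfl⟩, rfl⟩
    exact ⟨_, ⟨u, hu, rfl⟩, D.mfderiv_of_lift hF h i x u⟩

/-- The derivative of a transition is surjective. -/
lemma trans_surjective {i j : ι} {x : E} {γ : E → E} (hγ : DifferentiableAt ℂ γ x)
    (h : ∀ᶠ z in 𝓝 x, D.q j (γ z) = D.q i z) : Function.Surjective (fderiv ℂ γ x) := by
  intro w
  obtain ⟨v, hv⟩ := D.dqE_surjective i x (D.dqE j (γ x) w)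
  refine ⟨v, ?_⟩
  rw [D.dqE_eq_of_trans hγ h] at hv
  exact D.dqE_injective _ _ hv

lemma invDist_of_iff {d : E → Submodule ℂ E}
    (h : ∀ i j x x', D.q i x = D.q j x' → ∃ γ : E → E, DifferentiableAt ℂ γ x ∧ γ x = x' ∧
      (∀ᶠ z in 𝓝 x, D.q j (γ z) = D.q i z) ∧ ∀ v, v ∈ d x ↔ fderiv ℂ γ x v ∈ d x') :
    D.InvDist d := by
  intro i j x x' hx
  obtain ⟨γ, h1, h2, h3, h4⟩ := h i j x x' hx
  refine ⟨γ, h1, h2, h3, ?_⟩
  ext w
  constructor
  · rintro ⟨v, hv, rfl⟩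
    exact (h4 v).mp hv
  · intro hw
    obtain ⟨v, rfl⟩ := D.trans_surjective h1 h3 w
    exact ⟨v, (h4 v).mpr hw, rfl⟩

end Glue

namespace Glue

open PH

variable {ι E M : Type} [NormedAddCommGroup E] [NormedSpace ℂ E] [FiniteDimensional ℂ E]
  [TopologicalSpace M] (D : Glue ι E M)

/-- Continuity of a pushed distribution with a global continuous frame. -/
lemma isContinuousSubbundle_push {d : E → Submodule ℂ (E)} (hd : D.InvDist d) {r : ℕ}
    (e : Fin r → E → E) (he : ∀ j, Continuous (e j))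
    (hli : ∀ x, LinearIndependent ℂ (fun j => e j x))
    (hspan : ∀ x, Submodule.span ℂ (range fun j => e j x) = d x) :
    IsContinuousSubbundle (E := E) (M := D.Space) (D.push d) := by
  intro y₀
  obtain ⟨i, x₀, rfl⟩ := D.surj_q y₀
  refine ⟨(D.inv i x₀).source, r, fun j y => (D.dqE i (D.inv i x₀ y) (e j (D.inv i x₀ y)) : E),
    (D.inv i x₀).open_source, D.q_mem_inv_source i x₀, fun j => D.continuousOn_sec i x₀ (he j), ?_⟩
  intro y hy
  set x := D.inv i x₀ y with hx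
  have hy' : D.q i x = y := D.q_inv hy
  constructor
  · have h1 := (hli x).map' (D.dqE i x).toLinearMap
      (LinearMap.ker_eq_bot.mpr (D.dqE_injective i x))
    exact h1
  · have h2 : D.push d (D.q i x) = (d x).map (D.dqE i x).toLinearMap := D.push_q hd i x
    rw [hy'] at h2
    rw [h2, ← hspan x, Submodule.map_span, ← range_comp]
    rfl

/-- The pullback of a vector field differentiable at `q i x₀`. -/
lemma exists_pullback {i : ι} {x₀ : E} (X : VField E D.Space)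
    (hX : MDifferentiableAt 𝓘(ℂ, E) 𝓘(ℂ, E).tangent X.sec (D.q i x₀)) :
    ∃ ξ : E → E, DifferentiableAt ℂ ξ x₀ ∧
      ∀ x, (D.dqE i x (ξ x) : E) = X (D.q i x) := by
  haveI : CompleteSpace E := FiniteDimensional.complete ℂ E
  have hinvert : ∀ x, (mfderiv 𝓘(ℂ, E) 𝓘(ℂ, E) (D.q i) x).IsInvertible := by
    intro x
    have h1 : Function.Bijective (D.dqE i x) := ⟨D.dqE_injective i x, D.dqE_surjective i x⟩
    let A : E ≃L[ℂ] E :=
      (LinearEquiv.ofBijective (D.dqE i x).toLinearMap h1).toContinuousLinearEquiv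
    refine ⟨A, ?_⟩
    ext v
    rfl
  have h2 : MDifferentiableAt 𝓘(ℂ, E) 𝓘(ℂ, E).tangent
      (fun x => (⟨x, VectorField.mpullback 𝓘(ℂ, E) 𝓘(ℂ, E) (D.q i) X x⟩ :
        TangentBundle 𝓘(ℂ, E) (E))) x₀ :=
    MDifferentiableAt.mpullback_vectorField hX (D.contMDiff_q i x₀) (hinvert x₀) (by simp)
  refine ⟨fun x => VectorField.mpullback 𝓘(ℂ, E) 𝓘(ℂ, E) (D.q i) X x, ?_, ?_⟩
  · have h3 : MDifferentiableAt 𝓘(ℂ, E).tangent 𝓘(ℂ, E)
        (fun p : TangentBundle 𝓘(ℂ, E) (E) => (p.2 : E))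
        (⟨x₀, VectorField.mpullback 𝓘(ℂ, E) 𝓘(ℂ, E) (D.q i) X x₀⟩ :
        TangentBundle 𝓘(ℂ, E) (E)) :=
      (contMDiff_snd_tangentBundle_modelSpace (n := 1) (E) 𝓘(ℂ, E) _).mdifferentiableAt
        (by simp)
    have h4 := h3.comp x₀ h2
    exact h4.differentiableAt
  · intro x
    have h5 := (hinvert x).self_comp_inverse
    exact DFunLike.congr_fun h5 (X (D.q i x))

end Glue

end Pool.Agent.H49
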