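import Pool.Agent.H49.Four2
import Pool.Agent.H49.Glue2

/-!
# The complex fourfold: the diffeomorphism and the splitting
-/

open scoped Manifold ContDiff Topology ComplexConjugate OnePoint
open Set Filter

namespace Pool.Agent.H49

open PH

lemma q_false (w : E4) : DD.q false w = (p0 w : TP) := rfl
lemma q_true (w : E4) : DD.q true w = (sig (p0 w) : TP) := rfl

instance : CompactSpace M4 := inferInstanceAs (CompactSpace TP)
instance : T2Space M4 := inferInstanceAs (T2Space TP)
instance : ConnectedSpace M4 := inferInstanceAs (ConnectedSpace TP)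

lemma goodQ (i j : Bool) (x x' : E4) (h : DD.q i x = DD.q j x') :
    ∃ γ : E4 → E4, Good γ x ∧ γ x = x' ∧ ∀ᶠ z in 𝓝 x, DD.q j (γ z) = DD.q i z :=
  good_trans i j x x' h

/-! ### The diffeomorphism -/

/-- The linear map `(w₀, w₁, w₂, w₃) ↦ (w₀, l w₁, l̄ w₂, r w₃)`. -/
noncomputable def sc (l r : ℂ) : E4 →L[ℂ] E4 :=
  LinearMap.toContinuousLinearMap
    { toFun := fun w => mk4 (w 0) (l * w 1) (conj l * w 2) (r * w 3)
      map_add' := fun v w => by
        apply E4_ext <;> simp [mul_add]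
      map_smul' := fun c w => by
        apply E4_ext <;> simp <;> ring }

lemma sc_apply (l r : ℂ) (w : E4) : sc l r w = mk4 (w 0) (l * w 1) (conj l * w 2) (r * w 3) := rfl

@[simp] lemma sc_0 (l r : ℂ) (w : E4) : sc l r w 0 = w 0 := rfl
@[simp] lemma sc_1 (l r : ℂ) (w : E4) : sc l r w 1 = l * w 1 := rfl
@[simp] lemma sc_2 (l r : ℂ) (w : E4) : sc l r w 2 = conj l * w 2 := rfl
@[simp] lemma sc_3 (l r : ℂ) (w : E4) : sc l r w 3 = r * w 3 := rfl

lemma aC_sc (l r : ℂ) (w : E4) : aC (sc l r w) = l * aC w := by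
  unfold aC
  simp only [sc_0, sc_1, sc_2, map_mul, Complex.conj_conj]
  ring

lemma bC_sc (l r : ℂ) (w : E4) : bC (sc l r w) = l * bC w := by
  unfold bC
  simp only [sc_0, sc_1, sc_2, map_mul, Complex.conj_conj]
  ring

lemma al_sc (l r : ℂ) (x v : E4) : al (sc l r x) (sc l r v) = l * al x v := by
  unfold al
  rw [bC_sc]
  simp only [sc_0, sc_1]
  ring

lemma be_sc (l r : ℂ) (x v : E4) : be (sc l r x) (sc l r v) = conj l * be x v := by
  unfold be
  rw [aC_sc, map_mul]
  simp only [sc_0, sc_2]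
  ring

lemma sc_sc (l r l' r' : ℂ) (w : E4) : sc l r (sc l' r' w) = sc (l * l') (r * r') w := by
  apply E4_ext
  · rfl
  · simp only [sc_1]; ring
  · simp only [sc_2, map_mul]; ring
  · simp only [sc_3]; ring

lemma sc_one (w : E4) : sc 1 1 w = w := by
  apply E4_ext <;> simp

lemma sc_iterate (l r : ℂ) (k : ℕ) (w : E4) : (sc l r)^[k] w = sc (l ^ k) (r ^ k) w := by
  induction k generalizing w with
  | zero => simp [sc_one]
  | succ k ih => rw [Function.iterate_succ_apply, ih, sc_sc, pow_succ, pow_succ]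

lemma sc_iterate' (l r : ℂ) (k : ℕ) : ((sc l r : E4 → E4))^[k] = sc (l ^ k) (r ^ k) :=
  funext (sc_iterate l r k)

lemma fderiv_sc (l r : ℂ) (x v : E4) : fderiv ℂ (sc l r) x v = sc l r v := by
  rw [ContinuousLinearMap.fderiv]

/-- The homeomorphism of `T⁶ × P¹` induced by the unit. -/
noncomputable def fTP : TP ≃ TP where
  toFun y := (Aaut y.1, y.2)
  invFun y := (Aaut.symm y.1, y.2)
  left_inv y := Prod.ext (Aaut.symm_apply_apply _) rfl
  right_inv y := Prod.ext (Aaut.apply_symm_apply _) rfl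

lemma fTP_p0 (w : E4) : fTP (p0 w) = p0 (sc lam rho w) := by
  unfold p0
  refine Prod.ext ?_ rfl
  change Aaut (piV (Psi w)) = piV (Psi (sc lam rho w))
  rw [piV_A]
  congr 1
  unfold Psi
  rw [aC_sc, bC_sc]
  rfl

lemma fTP_sig (y : TP) : fTP (sig y) = sig (fTP y) := by
  refine Prod.ext ?_ rfl
  change Aaut (Saut y.1) = Saut (Aaut y.1)
  funext i
  fin_cases i <;> simp [Aaut, Saut] <;> abel

lemma lam_ne_zero : lam ≠ 0 := norm_pos_iff.mp norm_lam_pos
lemma rho_ne_zero : (rho : ℂ) ≠ 0 := by exact_mod_cast rho_pos.ne'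

lemma fTP_q (i : Bool) (x : E4) : (fTP (DD.q i x) : DD.Space) = DD.q i (sc lam rho x) := by
  cases i
  · exact fTP_p0 x
  · change fTP (sig (p0 x)) = sig (p0 (sc lam rho x))
    rw [fTP_sig, fTP_p0]

lemma fTP_symm_q (i : Bool) (x : E4) :
    (fTP.symm (DD.q i x) : DD.Space) = DD.q i (sc lam⁻¹ (rho : ℂ)⁻¹ x) := by
  have h : (DD.q i x : TP) = fTP (DD.q i (sc lam⁻¹ (rho : ℂ)⁻¹ x)) := by
    have h1 := fTP_q i (sc lam⁻¹ (rho : ℂ)⁻¹ x)
    rw [sc_sc, mul_inv_cancel₀ lam_ne_zero, mul_inv_cancel₀ rho_ne_zero, sc_one] at h1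
    exact h1.symm
  rw [h, Equiv.symm_apply_apply]

/-- The holomorphic diffeomorphism of the fourfold. -/
noncomputable def fM : M4 ≃ₘ^ω⟮𝓘(ℂ, E4), 𝓘(ℂ, E4)⟯ M4 where
  toEquiv := fTP
  contMDiff_toFun := DD.contMDiff_of_lift (F := fTP) (Fh := sc lam rho) fTP_q (sc lam rho).contDiff
  contMDiff_invFun := DD.contMDiff_of_lift (F := fTP.symm) (Fh := sc lam⁻¹ (rho : ℂ)⁻¹) fTP_symm_q
    (sc lam⁻¹ (rho : ℂ)⁻¹).contDiff

lemma fM_q (i : Bool) (x : E4) : (fM : M4 → M4) (DD.q i x) = DD.q i (sc lam rho x) := fTP_q i x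

/-! ### The distributions -/

/-- `v ↦ α(x, v)` as a linear map. -/
noncomputable def alL (x : E4) : E4 →ₗ[ℂ] ℂ where
  toFun := al x
  map_add' v w := by simp only [al, PiLp.add_apply]; ring
  map_smul' c v := by simp only [al, PiLp.smul_apply, smul_eq_mul, RingHom.id_apply]; ring

/-- `v ↦ β(x, v)` as a linear map. -/
noncomputable def beL (x : E4) : E4 →ₗ[ℂ] ℂ where
  toFun := be x
  map_add' v w := by simp only [be, PiLp.add_apply]; ring
  map_smul' c v := by simp only [be, PiLp.smul_apply, smul_eq_mul, RingHom.id_apply]; ring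

/-- A coordinate as a linear map. -/
noncomputable def coL (i : Fin 4) : E4 →ₗ[ℂ] ℂ where
  toFun v := v i
  map_add' v w := rfl
  map_smul' c v := rfl

/-- Stable distribution on `ℂ⁴`. -/
noncomputable def dS (_ : E4) : Submodule ℂ E4 := LinearMap.ker (coL 0) ⊓ LinearMap.ker (coL 3)
/-- Unstable distribution on `ℂ⁴`. -/
noncomputable def dU (x : E4) : Submodule ℂ E4 :=
  LinearMap.ker (coL 0) ⊓ (LinearMap.ker (alL x) ⊓ LinearMap.ker (beL x))
/-- Center distribution on `ℂ⁴`. -/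
noncomputable def dC (x : E4) : Submodule ℂ E4 :=
  LinearMap.ker (coL 3) ⊓ (LinearMap.ker (alL x) ⊓ LinearMap.ker (beL x))

lemma mem_dS {x v : E4} : v ∈ dS x ↔ v 0 = 0 ∧ v 3 = 0 := Iff.rfl
lemma mem_dU {x v : E4} : v ∈ dU x ↔ v 0 = 0 ∧ al x v = 0 ∧ be x v = 0 := Iff.rfl
lemma mem_dC {x v : E4} : v ∈ dC x ↔ v 3 = 0 ∧ al x v = 0 ∧ be x v = 0 := Iff.rfl

lemma invDist_dS : DD.InvDist dS := by
  apply DD.invDist_of_iff
  intro i j x x' h
  obtain ⟨γ, hγ, hx, he⟩ := goodQ i j x x' h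
  refine ⟨γ, hγ.differentiableAt, hx, he, fun v => ?_⟩
  obtain ⟨u1, u3, u0, h1, h3, h0, hv, n1, n3, n0⟩ := hγ.effect
  obtain ⟨a1, a2, a3, a4⟩ := hv v
  rw [mem_dS, mem_dS, a3, a4, mul_eq_zero, mul_eq_zero]
  simp [h0, h3]

lemma invDist_dU : DD.InvDist dU := by
  apply DD.invDist_of_iff
  intro i j x x' h
  obtain ⟨γ, hγ, hx, he⟩ := goodQ i j x x' h
  refine ⟨γ, hγ.differentiableAt, hx, he, fun v => ?_⟩
  obtain ⟨u1, u3, u0, h1, h3, h0, hv, n1, n3, n0⟩ := hγ.effect
  obtain ⟨a1, a2, a3, a4⟩ := hv v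
  rw [mem_dU, mem_dU, ← hx, a1, a2, a4, mul_eq_zero, mul_eq_zero, mul_eq_zero]
  simp [h0, h1]

lemma invDist_dC : DD.InvDist dC := by
  apply DD.invDist_of_iff
  intro i j x x' h
  obtain ⟨γ, hγ, hx, he⟩ := goodQ i j x x' h
  refine ⟨γ, hγ.differentiableAt, hx, he, fun v => ?_⟩
  obtain ⟨u1, u3, u0, h1, h3, h0, hv, n1, n3, n0⟩ := hγ.effect
  obtain ⟨a1, a2, a3, a4⟩ := hv v
  rw [mem_dC, mem_dC, ← hx, a1, a2, a3, mul_eq_zero, mul_eq_zero, mul_eq_zero]
  simp [h3, h1]

/-- The stable bundle. -/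
noncomputable def Es : Distribution E4 M4 := DD.push dS
/-- The center bundle. -/
noncomputable def Ec : Distribution E4 M4 := DD.push dC
/-- The unstable bundle. -/
noncomputable def Eu : Distribution E4 M4 := DD.push dU

/-! Frames. -/

/-- The center vector field. -/
noncomputable def ec (x : E4) : E4 := mk4 1 (bC x) (conj (aC x)) 0

lemma continuous_ec : Continuous ec :=
  continuous_mk4 continuous_const continuous_bC
    (Complex.continuous_conj.comp continuous_aC) continuous_const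

lemma span_ec (x : E4) : Submodule.span ℂ (range fun _ : Fin 1 => ec x) = dC x := by
  rw [range_const]
  ext v
  rw [Submodule.mem_span_singleton, mem_dC]
  constructor
  · rintro ⟨c, rfl⟩
    unfold al be ec
    simp
    constructor <;> ring
  · rintro ⟨h3, h1, h2⟩
    refine ⟨v 0, ?_⟩
    unfold al at h1
    unfold be at h2
    apply E4_ext
    · simp [ec]
    · simp [ec]
      linear_combination -h1
    · simp [ec]
      linear_combination -h2
    · simp [ec, h3]

lemma li_ec (x : E4) : LinearIndependent ℂ (fun _ : Fin 1 => ec x) := by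
  rw [linearIndependent_unique_iff]
  intro h
  have := congrArg (fun v : E4 => v 0) h
  simp [ec] at this

lemma cont_Ec : IsContinuousSubbundle Ec :=
  DD.isContinuousSubbundle_push invDist_dC (fun _ => ec) (fun _ => continuous_ec) li_ec span_ec

/-- Unstable frame. -/
noncomputable def eu (_ : E4) : E4 := mk4 0 0 0 1

lemma span_eu (x : E4) : Submodule.span ℂ (range fun _ : Fin 1 => eu x) = dU x := by
  rw [range_const]
  ext v
  rw [Submodule.mem_span_singleton, mem_dU]
  constructor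
  · rintro ⟨c, rfl⟩
    unfold al be eu
    simp
  · rintro ⟨h0, h1, h2⟩
    refine ⟨v 3, ?_⟩
    unfold al at h1
    unfold be at h2
    rw [h0] at h1 h2
    apply E4_ext
    · simp [eu, h0]
    · simp [eu]
      linear_combination -h1
    · simp [eu]
      linear_combination -h2
    · simp [eu]

lemma li_eu (x : E4) : LinearIndependent ℂ (fun _ : Fin 1 => eu x) := by
  rw [linearIndependent_unique_iff]
  intro h
  have := congrArg (fun v : E4 => v 3) h
  simp [eu] at this

lemma cont_Eu : IsContinuousSubbundle Eu :=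
  DD.isContinuousSubbundle_push invDist_dU (fun _ => eu) (fun _ => continuous_const) li_eu span_eu

/-- Stable frame. -/
noncomputable def es (j : Fin 2) (_ : E4) : E4 := ![mk4 0 1 0 0, mk4 0 0 1 0] j

lemma span_es (x : E4) : Submodule.span ℂ (range fun j : Fin 2 => es j x) = dS x := by
  have hr : (range fun j : Fin 2 => es j x) = {mk4 0 1 0 0, mk4 0 0 1 0} := by
    ext v
    simp [es, or_comm]
  rw [hr]
  ext v
  rw [Submodule.mem_span_pair, mem_dS]
  constructor
  · rintro ⟨a, b, rfl⟩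
    simp
  · rintro ⟨h0, h3⟩
    refine ⟨v 1, v 2, ?_⟩
    apply E4_ext <;> simp [h0, h3]

lemma li_es (x : E4) : LinearIndependent ℂ (fun j : Fin 2 => es j x) := by
  rw [Fintype.linearIndependent_iff]
  intro g hg i
  rw [Fin.sum_univ_two] at hg
  have h1 := congrArg (fun v : E4 => v 1) hg
  have h2 := congrArg (fun v : E4 => v 2) hg
  simp [es] at h1 h2
  fin_cases i
  · exact h1
  · exact h2

lemma cont_Es : IsContinuousSubbundle Es :=
  DD.isContinuousSubbundle_push invDist_dS es (fun _ => continuous_const) li_es span_es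

end Pool.Agent.H49
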