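import Pool.Agent.H49.Glue2

/-!
# Metrics on compact glued spaces are comparable; splittings
-/

open scoped Manifold ContDiff Topology
open Set Filter

namespace Pool.Agent.H49

open PH

lemma inner_smul_smul {E : Type} [NormedAddCommGroup E] [NormedSpace ℂ E]
    {M : Type} [TopologicalSpace M] [ChartedSpace E M]
    [IsManifold 𝓘(ℂ, E) ω M] (g : RiemannianMetric E M) (x : M) (r : ℝ)
    (v : TangentSpace 𝓘(ℂ, E) x) :
    g.inner x ((r : ℂ) • v) ((r : ℂ) • v) = r ^ 2 * g.inner x v v := by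
  rw [g.smul_left, g.symm, g.smul_left]
  ring

lemma inner_nonneg {E : Type} [NormedAddCommGroup E] [NormedSpace ℂ E]
    {M : Type} [TopologicalSpace M] [ChartedSpace E M]
    [IsManifold 𝓘(ℂ, E) ω M] (g : RiemannianMetric E M) (x : M)
    (v : TangentSpace 𝓘(ℂ, E) x) : 0 ≤ g.inner x v v := by
  by_cases hv : v = 0
  · subst hv
    have := g.smul_left x 0 0 (0 : TangentSpace 𝓘(ℂ, E) x)
    simp at this
    rw [this]
  · exact (g.pos x v hv).le

namespace Glue

variable {ι E M : Type} [NormedAddCommGroup E] [NormedSpace ℂ E] [FiniteDimensional ℂ E]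
  [TopologicalSpace M] (D : Glue ι E M)

lemma continuous_inner_q (g : RiemannianMetric E D.Space) (i : ι) :
    Continuous fun p : E × E =>
      g.inner (D.q i p.1) (D.dqE i p.1 p.2 : E) (D.dqE i p.1 p.2 : E) := by
  have h1 : Continuous (tangentMap 𝓘(ℂ, E) 𝓘(ℂ, E) (D.q i)) :=
    (D.contMDiff_q i).continuous_tangentMap (by simp)
  have h2 : Continuous (fun p : E × E =>
      ((tangentBundleModelSpaceHomeomorph 𝓘(ℂ, E)).symm (p : ModelProd (E) (E)) :
        TangentBundle 𝓘(ℂ, E) (E))) :=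
    (tangentBundleModelSpaceHomeomorph 𝓘(ℂ, E)).symm.continuous
  exact g.cont.comp (h1.comp h2)

/-- Two metrics on a compact glued space are comparable. -/
lemma exists_inner_le [CompactSpace D.Space] (g₁ g₂ : RiemannianMetric E D.Space) :
    ∃ C : ℝ, 1 ≤ C ∧ ∀ (y : D.Space) (v : TangentSpace 𝓘(ℂ, E) y),
      g₁.inner y v v ≤ C * g₂.inner y v v := by
  haveI : ProperSpace E := FiniteDimensional.proper ℂ E
  have hloc : ∀ y₀ : D.Space, ∃ U ∈ 𝓝 y₀, ∃ C : ℝ, 1 ≤ C ∧ ∀ y ∈ U,
      ∀ v : TangentSpace 𝓘(ℂ, E) y, g₁.inner y v v ≤ C * g₂.inner y v v := by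
    intro y₀
    obtain ⟨i, x₀, rfl⟩ := D.surj_q y₀
    set K : Set (E × E) := Metric.closedBall x₀ 1 ×ˢ Metric.sphere 0 1 with hK
    have hKc : IsCompact K := (isCompact_closedBall x₀ 1).prod (isCompact_sphere 0 1)
    have hc1 := D.continuous_inner_q g₁ i
    have hc2 := D.continuous_inner_q g₂ i
    obtain ⟨C₁, hC₁⟩ := hKc.exists_bound_of_continuousOn hc1.continuousOn
    -- lower bound for g₂
    have hpos : ∀ p ∈ K, 0 < g₂.inner (D.q i p.1) (D.dqE i p.1 p.2 : E)
        (D.dqE i p.1 p.2 : E) := by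
      rintro ⟨x, w⟩ ⟨_, hw⟩
      apply g₂.pos
      intro h0
      have : w = 0 := by
        apply D.dqE_injective i x
        rw [map_zero]
        exact h0
      rw [this] at hw
      simp at hw
    have hlow : ∃ c : ℝ, 0 < c ∧ ∀ p ∈ K, c ≤ g₂.inner (D.q i p.1) (D.dqE i p.1 p.2 : E)
        (D.dqE i p.1 p.2 : E) := by
      rcases K.eq_empty_or_nonempty with hKe | hKne
      · exact ⟨1, one_pos, fun p hp => by rw [hKe] at hp; exact absurd hp (notMem_empty p)⟩
      · obtain ⟨p, hp, hmin⟩ := hKc.exists_isMinOn hKne hc2.continuousOn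
        exact ⟨_, hpos p hp, fun q hq => hmin hq⟩
    obtain ⟨c, hc, hc'⟩ := hlow
    refine ⟨D.q i '' Metric.ball x₀ 1, ?_, max 1 (C₁ / c), le_max_left _ _, ?_⟩
    · exact (D.loc_q i).isOpenMap.image_mem_nhds (Metric.ball_mem_nhds x₀ one_pos)
    · rintro y ⟨x, hx, rfl⟩ v
      obtain ⟨w, hw⟩ := D.dqE_surjective i x v
      by_cases hw0 : w = 0
      · have hv0 : v = 0 := by
          have : (v : E) = 0 := by
            rw [← hw, hw0]
            exact map_zero _
          exact this
        have e1 := inner_smul_smul g₁ (D.q i x) 0 v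
        have e2 := inner_smul_smul g₂ (D.q i x) 0 v
        rw [hv0, smul_zero] at e1 e2
        rw [hv0, e1, e2]
        simp
      · have hn : 0 < ‖w‖ := norm_pos_iff.mpr hw0
        set u : E := ((‖w‖⁻¹ : ℝ) : ℂ) • w with hu
        have hun : ‖u‖ = 1 := by
          rw [hu, norm_smul]
          simp [hn.ne']
        have hmem : (x, u) ∈ K := by
          refine ⟨Metric.ball_subset_closedBall hx, ?_⟩
          simp [hun]
        have hwu : w = ((‖w‖ : ℝ) : ℂ) • u := by
          rw [hu, smul_smul, ← Complex.ofReal_mul, mul_inv_cancel₀ hn.ne']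
          simp
        have hv : v = ((‖w‖ : ℝ) : ℂ) • (D.dqE i x u : TangentSpace 𝓘(ℂ, E) (D.q i x)) := by
          have : (v : E) = ((‖w‖ : ℝ) : ℂ) • (D.dqE i x u) := by
            rw [← map_smul, ← hwu, hw]
          exact this
        have h1 : g₁.inner (D.q i x) (D.dqE i x u : E) (D.dqE i x u : E) ≤ C₁ :=
          (le_abs_self _).trans (hC₁ (x, u) hmem)
        have h2 : c ≤ g₂.inner (D.q i x) (D.dqE i x u : E) (D.dqE i x u : E) :=
          hc' (x, u) hmem
        have h3 : g₁.inner (D.q i x) (D.dqE i x u : E) (D.dqE i x u : E) ≤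
            max 1 (C₁ / c) * g₂.inner (D.q i x) (D.dqE i x u : E) (D.dqE i x u : E) := by
          have hb : 0 < g₂.inner (D.q i x) (D.dqE i x u : E) (D.dqE i x u : E) :=
            lt_of_lt_of_le hc h2
          by_cases hneg : C₁ < 0
          · have : g₁.inner (D.q i x) (D.dqE i x u : E) (D.dqE i x u : E) < 0 :=
              lt_of_le_of_lt h1 hneg
            have h5 : 0 ≤ max 1 (C₁ / c) * g₂.inner (D.q i x) (D.dqE i x u : E)
                (D.dqE i x u : E) :=
              mul_nonneg (le_trans zero_le_one (le_max_left _ _)) hb.le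
            linarith
          · push Not at hneg
            calc g₁.inner (D.q i x) (D.dqE i x u : E) (D.dqE i x u : E) ≤ C₁ := h1
              _ = C₁ / c * c := by field_simp
              _ ≤ C₁ / c * g₂.inner (D.q i x) (D.dqE i x u : E) (D.dqE i x u : E) :=
                mul_le_mul_of_nonneg_left h2 (div_nonneg hneg hc.le)
              _ ≤ _ := mul_le_mul_of_nonneg_right (le_max_right _ _) hb.le
        have hsq : 0 ≤ ‖w‖ ^ 2 := by positivity
        have key : ∀ V : TangentSpace 𝓘(ℂ, E) (D.q i x),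
            g₁.inner (D.q i x) V V ≤ max 1 (C₁ / c) * g₂.inner (D.q i x) V V →
            v = ((‖w‖ : ℝ) : ℂ) • V →
            g₁.inner (D.q i x) v v ≤ max 1 (C₁ / c) * g₂.inner (D.q i x) v v := by
          intro V h3 hv
          rw [hv, inner_smul_smul, inner_smul_smul]
          calc ‖w‖ ^ 2 * g₁.inner (D.q i x) V V
              ≤ ‖w‖ ^ 2 * (max 1 (C₁ / c) * g₂.inner (D.q i x) V V) :=
                mul_le_mul_of_nonneg_left h3 hsq
            _ = _ := by ring
        exact key _ h3 hv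
  choose U hU C hC1 hC2 using hloc
  obtain ⟨t, ht⟩ := CompactSpace.elim_nhds_subcover U hU
  refine ⟨1 + ∑ y ∈ t, C y, ?_, ?_⟩
  · have : 0 ≤ ∑ y ∈ t, C y := Finset.sum_nonneg fun y _ => le_trans zero_le_one (hC1 y)
    linarith
  · intro y v
    have hy : y ∈ ⋃ x ∈ t, U x := by
      have : y ∈ (⊤ : Set D.Space) := trivial
      rwa [← ht] at this
    simp only [mem_iUnion] at hy
    obtain ⟨x, hx, hyx⟩ := hy
    have h1 := hC2 x y hyx v
    have h2 : C x ≤ 1 + ∑ y ∈ t, C y := by
      have : C x ≤ ∑ y ∈ t, C y :=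
        Finset.single_le_sum (f := C) (fun y _ => le_trans zero_le_one (hC1 y)) hx
      linarith
    exact h1.trans (mul_le_mul_of_nonneg_right h2 (inner_nonneg g₂ y v))

end Glue

end Pool.Agent.H49
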