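import Pool.Agent.H49.Four3
import Pool.Agent.H49.Glue3

/-!
# The complex fourfold: metric, splitting, partial hyperbolicity
-/

open scoped Manifold ContDiff Topology ComplexConjugate OnePoint
open Set Filter

namespace Pool.Agent.H49

open PH

/-! ### The metric -/

/-- The adapted metric on `ℂ⁴`. -/
noncomputable def GG (x v w : E4) : ℝ :=
  ((conj (al x v) * al x w).re + (conj (be x v) * be x w).re) / rr x +
    (conj (v 3) * w 3).re + (conj (v 0) * w 0).re / rr x ^ 2

lemma conj_mul_scale (u a b : ℂ) :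
    (conj (u * a) * (u * b)).re = Complex.normSq u * (conj a * b).re := by
  have : conj (u * a) * (u * b) = (Complex.normSq u : ℂ) * (conj a * b) := by
    rw [map_mul, Complex.normSq_eq_conj_mul_self]
    ring
  rw [this, Complex.re_ofReal_mul]

lemma invForm_GG : DD.InvForm GG := by
  intro i j x x' h
  obtain ⟨γ, hγ, hx, he⟩ := goodQ i j x x' h
  refine ⟨γ, hγ.differentiableAt, hx, he, fun v w => ?_⟩
  obtain ⟨u1, u3, u0, h1, h3, h0, hv, n1, n3, n0⟩ := hγ.effect
  obtain ⟨a1, a2, a3, a4⟩ := hv v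
  obtain ⟨b1, b2, b3, b4⟩ := hv w
  unfold GG
  rw [← hx, a1, a2, a3, a4, b1, b2, b3, b4, conj_mul_scale, conj_mul_scale, conj_mul_scale,
    conj_mul_scale, n3, ← n0, ← n1]
  have hr := rr_pos x
  have hn1 : Complex.normSq u1 ≠ 0 := by simpa using h1
  have hn0 : Complex.normSq u0 ≠ 0 := by simpa using h0
  field_simp

lemma GG_self (x v : E4) : GG x v v =
    (Complex.normSq (al x v) + Complex.normSq (be x v)) / rr x + Complex.normSq (v 3) +
      Complex.normSq (v 0) / rr x ^ 2 := by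
  unfold GG
  have h : ∀ z : ℂ, (conj z * z).re = Complex.normSq z := by
    intro z
    rw [← Complex.normSq_eq_conj_mul_self]
    simp
  rw [h, h, h, h]

lemma GG_symm (x v w : E4) : GG x v w = GG x w v := by
  unfold GG
  have h : ∀ a b : ℂ, (conj a * b).re = (conj b * a).re := by
    intro a b
    simp [Complex.mul_re]
    ring
  rw [h (al x v), h (be x v), h (v 3), h (v 0)]

lemma GG_add (x u v w : E4) : GG x (u + v) w = GG x u w + GG x v w := by
  unfold GG
  have h1 : al x (u + v) = al x u + al x v := (alL x).map_add u v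
  have h2 : be x (u + v) = be x u + be x v := (beL x).map_add u v
  rw [h1, h2]
  simp only [PiLp.add_apply, map_add, add_mul, Complex.add_re]
  ring

lemma GG_smul (x : E4) (r : ℝ) (v w : E4) : GG x ((r : ℂ) • v) w = r * GG x v w := by
  unfold GG
  have h1 : al x ((r : ℂ) • v) = (r : ℂ) * al x v := (alL x).map_smul r v
  have h2 : be x ((r : ℂ) • v) = (r : ℂ) * be x v := (beL x).map_smul r v
  rw [h1, h2]
  simp only [PiLp.smul_apply, smul_eq_mul, map_mul, Complex.conj_ofReal, mul_assoc,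
    Complex.re_ofReal_mul]
  ring

lemma GG_pos (x v : E4) (hv : v ≠ 0) : 0 < GG x v v := by
  rw [GG_self]
  have hr := rr_pos x
  by_contra hcon
  push Not at hcon
  have n1 := Complex.normSq_nonneg (al x v)
  have n2 := Complex.normSq_nonneg (be x v)
  have n3 := Complex.normSq_nonneg (v 3)
  have n0 := Complex.normSq_nonneg (v 0)
  have m1 : 0 ≤ (Complex.normSq (al x v) + Complex.normSq (be x v)) / rr x := by positivity
  have m0 : 0 ≤ Complex.normSq (v 0) / rr x ^ 2 := by positivity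
  have e3 : Complex.normSq (v 3) = 0 := by linarith
  have e0 : Complex.normSq (v 0) / rr x ^ 2 = 0 := by linarith
  have e1 : (Complex.normSq (al x v) + Complex.normSq (be x v)) / rr x = 0 := by linarith
  have f0 : Complex.normSq (v 0) = 0 := by
    rcases div_eq_zero_iff.mp e0 with h | h
    · exact h
    · exact absurd h (by positivity)
  have f1 : Complex.normSq (al x v) + Complex.normSq (be x v) = 0 := by
    rcases div_eq_zero_iff.mp e1 with h | h
    · exact h
    · exact absurd h hr.ne'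
  have g1 : Complex.normSq (al x v) = 0 := by linarith
  have g2 : Complex.normSq (be x v) = 0 := by linarith
  rw [Complex.normSq_eq_zero] at e3 f0 g1 g2
  apply hv
  unfold al at g1
  unfold be at g2
  rw [f0] at g1 g2
  apply E4_ext
  · exact f0
  · simpa using g1
  · simpa using g2
  · exact e3

lemma continuous_GG : Continuous fun p : E4 × E4 => GG p.1 p.2 p.2 := by
  have hc : ∀ i : Fin 4, Continuous fun p : E4 × E4 => p.2 i := fun i =>
    (continuous_coord i).comp continuous_snd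
  have hd : Continuous fun p : E4 × E4 => p.1 0 := (continuous_coord 0).comp continuous_fst
  have h0 := hc 0
  have h1 := hc 1
  have h2 := hc 2
  have h3 := hc 3
  have ha : Continuous fun p : E4 × E4 => al p.1 p.2 :=
    h1.sub ((continuous_bC.comp continuous_fst).mul h0)
  have hb : Continuous fun p : E4 × E4 => be p.1 p.2 :=
    h2.sub ((Complex.continuous_conj.comp (continuous_aC.comp continuous_fst)).mul h0)
  have hr : Continuous fun p : E4 × E4 => rr p.1 :=
    continuous_const.add (Complex.continuous_normSq.comp hd)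
  have hrne : ∀ p : E4 × E4, rr p.1 ≠ 0 := fun p => (rr_pos p.1).ne'
  have hrne2 : ∀ p : E4 × E4, rr p.1 ^ 2 ≠ 0 := fun p => pow_ne_zero 2 (hrne p)
  have hcj : ∀ {F : E4 × E4 → ℂ}, Continuous F → Continuous fun p => (conj (F p) * F p).re :=
    fun {F} hF => Complex.continuous_re.comp ((Complex.continuous_conj.comp hF).mul hF)
  exact ((((hcj ha).add (hcj hb)).div hr hrne).add (hcj h3)).add ((hcj h0).div (hr.pow 2) hrne2)

/-- The adapted Riemannian metric on the fourfold. -/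
noncomputable def gM : RiemannianMetric E4 M4 where
  inner y v w := DD.pushForm GG y v w
  symm y v w := GG_symm _ _ _
  add_left y u v w := by
    unfold Glue.pushForm
    have : DD.dinvE (DD.idx y) (DD.pre y) ((u : E4) + (v : E4)) =
      DD.dinvE (DD.idx y) (DD.pre y) u + DD.dinvE (DD.idx y) (DD.pre y) v := map_add _ _ _
    exact (congrArg (fun z => GG (DD.pre y) z (DD.dinvE (DD.idx y) (DD.pre y) w)) this).trans
      (GG_add _ _ _ _)
  smul_left y r v w := by
    unfold Glue.pushForm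
    have : DD.dinvE (DD.idx y) (DD.pre y) ((r : ℂ) • (v : E4)) =
      (r : ℂ) • DD.dinvE (DD.idx y) (DD.pre y) v := map_smul _ _ _
    exact (congrArg (fun z => GG (DD.pre y) z (DD.dinvE (DD.idx y) (DD.pre y) w)) this).trans
      (GG_smul _ _ _ _)
  pos y v hv := by
    apply GG_pos
    intro h0
    apply hv
    have h1 : DD.dqE (DD.idx y) (DD.pre y) (DD.dinvE (DD.idx y) (DD.pre y) v) = v :=
      DD.dqE_dinvE _ _ _
    rw [h0, map_zero] at h1
    exact h1.symm
  cont := DD.continuous_pushForm invForm_GG continuous_GG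

lemma gM_q (i : Bool) (x v : E4) :
    gM.inner (DD.q i x) (DD.dqE i x v : E4) (DD.dqE i x v : E4) = GG x v v :=
  DD.pushForm_q invForm_GG i x v v

/-! ### Action of the iterates -/

lemma fM_lift : ∀ i x, (fM : M4 → M4) (DD.q i x) = DD.q i (sc lam rho x) := fM_q

lemma mfderiv_fM_iterate (k : ℕ) (i : Bool) (x v : E4) :
    (mfderiv 𝓘(ℂ, E4) 𝓘(ℂ, E4) (fM : M4 → M4)^[k] (DD.q i x) (DD.dqE i x v : E4) : E4) =
      DD.dqE i (sc (lam ^ k) (rho ^ k) x) (sc (lam ^ k) (rho ^ k) v) := by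
  have h := DD.mfderiv_iterate_of_lift fM_lift (sc lam rho).contDiff k i x v
  rw [sc_iterate', fderiv_sc] at h
  exact h

lemma rr_sc (l r : ℂ) (x : E4) : rr (sc l r x) = rr x := rfl

lemma GG_sc (l r : ℂ) (x v : E4) : GG (sc l r x) (sc l r v) (sc l r v) =
    Complex.normSq l * ((Complex.normSq (al x v) + Complex.normSq (be x v)) / rr x) +
      Complex.normSq r * Complex.normSq (v 3) + Complex.normSq (v 0) / rr x ^ 2 := by
  rw [GG_self, al_sc, be_sc, rr_sc]
  simp only [sc_3, sc_0, Complex.normSq_mul, Complex.normSq_conj]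
  ring

lemma exists_lift (y : M4) (v : TangentSpace 𝓘(ℂ, E4) y) :
    ∃ (i : Bool) (x w : E4) (h : DD.q i x = y), (v : E4) = DD.dqE i x w := by
  obtain ⟨i, x, rfl⟩ := DD.surj_q y
  obtain ⟨w, hw⟩ := DD.dqE_surjective i x v
  exact ⟨i, x, w, rfl, hw.symm⟩

/-- Norm of the image under the iterates in the three bundles. -/
lemma inner_s (k : ℕ) (y : M4) (v : TangentSpace 𝓘(ℂ, E4) y) (hv : v ∈ Es y) :
    gM.inner _ (mfderiv 𝓘(ℂ, E4) 𝓘(ℂ, E4) (fM : M4 → M4)^[k] y v)
      (mfderiv 𝓘(ℂ, E4) 𝓘(ℂ, E4) (fM : M4 → M4)^[k] y v) =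
      Complex.normSq (lam ^ k) * gM.inner y v v := by
  obtain ⟨i, x, rfl⟩ := DD.surj_q y
  obtain ⟨w, rfl⟩ := DD.dqE_surjective i x v
  have hw : w ∈ dS x := (DD.dqE_mem_push_iff invDist_dS i x w).mp hv
  rw [mem_dS] at hw
  have h1 := mfderiv_fM_iterate k i x w
  have h2 := gM_q i (sc (lam ^ k) (rho ^ k) x) (sc (lam ^ k) (rho ^ k) w)
  have h3 : (fM : M4 → M4)^[k] (DD.q i x) = DD.q i (sc (lam ^ k) (rho ^ k) x) := by
    rw [DD.iterate_lift fM_lift, sc_iterate]
  rw [gM_q i x w, GG_self, hw.1, hw.2]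
  rw [GG_sc, hw.1, hw.2] at h2
  rw [← h3, ← h1] at h2
  refine h2.trans ?_
  simp

lemma inner_u (k : ℕ) (y : M4) (v : TangentSpace 𝓘(ℂ, E4) y) (hv : v ∈ Eu y) :
    gM.inner _ (mfderiv 𝓘(ℂ, E4) 𝓘(ℂ, E4) (fM : M4 → M4)^[k] y v)
      (mfderiv 𝓘(ℂ, E4) 𝓘(ℂ, E4) (fM : M4 → M4)^[k] y v) =
      Complex.normSq ((rho : ℂ) ^ k) * gM.inner y v v := by
  obtain ⟨i, x, rfl⟩ := DD.surj_q y
  obtain ⟨w, rfl⟩ := DD.dqE_surjective i x v
  have hw : w ∈ dU x := (DD.dqE_mem_push_iff invDist_dU i x w).mp hv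
  rw [mem_dU] at hw
  have h1 := mfderiv_fM_iterate k i x w
  have h2 := gM_q i (sc (lam ^ k) (rho ^ k) x) (sc (lam ^ k) (rho ^ k) w)
  have h3 : (fM : M4 → M4)^[k] (DD.q i x) = DD.q i (sc (lam ^ k) (rho ^ k) x) := by
    rw [DD.iterate_lift fM_lift, sc_iterate]
  rw [gM_q i x w, GG_self, hw.1, hw.2.1, hw.2.2]
  rw [GG_sc, hw.1, hw.2.1, hw.2.2] at h2
  rw [← h3, ← h1] at h2
  refine h2.trans ?_
  simp

lemma inner_c (k : ℕ) (y : M4) (v : TangentSpace 𝓘(ℂ, E4) y) (hv : v ∈ Ec y) :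
    gM.inner _ (mfderiv 𝓘(ℂ, E4) 𝓘(ℂ, E4) (fM : M4 → M4)^[k] y v)
      (mfderiv 𝓘(ℂ, E4) 𝓘(ℂ, E4) (fM : M4 → M4)^[k] y v) = gM.inner y v v := by
  obtain ⟨i, x, rfl⟩ := DD.surj_q y
  obtain ⟨w, rfl⟩ := DD.dqE_surjective i x v
  have hw : w ∈ dC x := (DD.dqE_mem_push_iff invDist_dC i x w).mp hv
  rw [mem_dC] at hw
  have h1 := mfderiv_fM_iterate k i x w
  have h2 := gM_q i (sc (lam ^ k) (rho ^ k) x) (sc (lam ^ k) (rho ^ k) w)
  have h3 : (fM : M4 → M4)^[k] (DD.q i x) = DD.q i (sc (lam ^ k) (rho ^ k) x) := by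
    rw [DD.iterate_lift fM_lift, sc_iterate]
  rw [gM_q i x w, GG_self, hw.1, hw.2.1, hw.2.2]
  rw [GG_sc, hw.1, hw.2.1, hw.2.2] at h2
  rw [← h3, ← h1] at h2
  refine h2.trans ?_
  simp

end Pool.Agent.H49
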