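import Pool.Agent.H49.Four4

/-!
# The complex fourfold: partial hyperbolicity
-/

open scoped Manifold ContDiff Topology ComplexConjugate OnePoint
open Set Filter

namespace Pool.Agent.H49

open PH

/-! ### Invariance and splitting -/

lemma map_sc_eq {d : E4 → Submodule ℂ E4}
    (h : ∀ x v, v ∈ d x ↔ sc lam rho v ∈ d (sc lam rho x)) (x : E4) :
    (d x).map (fderiv ℂ (sc lam rho) x).toLinearMap = d (sc lam rho x) := by
  ext w
  constructor
  · rintro ⟨v, hv, rfl⟩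
    change fderiv ℂ (sc lam rho) x v ∈ _
    rw [fderiv_sc]
    exact (h x v).mp hv
  · intro hw
    have hs : sc lam rho (sc lam⁻¹ (rho : ℂ)⁻¹ w) = w := by
      rw [sc_sc, mul_inv_cancel₀ lam_ne_zero, mul_inv_cancel₀ rho_ne_zero, sc_one]
    refine ⟨sc lam⁻¹ (rho : ℂ)⁻¹ w, ?_, ?_⟩
    · rw [← hs] at hw
      exact (h x _).mpr hw
    · change fderiv ℂ (sc lam rho) x _ = w
      rw [fderiv_sc, hs]

lemma conj_lam_ne_zero : conj lam ≠ 0 := by simpa using lam_ne_zero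

lemma map_dS (x : E4) : (dS x).map (fderiv ℂ (sc lam rho) x).toLinearMap = dS (sc lam rho x) := by
  apply map_sc_eq
  intro x v
  rw [mem_dS, mem_dS, sc_0, sc_3, mul_eq_zero]
  simp [rho_pos.ne']

lemma map_dU (x : E4) : (dU x).map (fderiv ℂ (sc lam rho) x).toLinearMap = dU (sc lam rho x) := by
  apply map_sc_eq
  intro x v
  rw [mem_dU, mem_dU, sc_0, al_sc, be_sc, mul_eq_zero, mul_eq_zero]
  simp [lam_ne_zero]

lemma map_dC (x : E4) : (dC x).map (fderiv ℂ (sc lam rho) x).toLinearMap = dC (sc lam rho x) := by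
  apply map_sc_eq
  intro x v
  rw [mem_dC, mem_dC, sc_3, al_sc, be_sc, mul_eq_zero, mul_eq_zero, mul_eq_zero]
  simp [lam_ne_zero, rho_pos.ne']

lemma inv_Es (y : M4) : (Es y).map (mfderiv 𝓘(ℂ, E4) 𝓘(ℂ, E4) (fM : M4 → M4) y).toLinearMap =
    Es (fM y) :=
  DD.map_push_of_lift fM_lift (sc lam rho).contDiff invDist_dS map_dS y

lemma inv_Ec (y : M4) : (Ec y).map (mfderiv 𝓘(ℂ, E4) 𝓘(ℂ, E4) (fM : M4 → M4) y).toLinearMap =
    Ec (fM y) :=
  DD.map_push_of_lift fM_lift (sc lam rho).contDiff invDist_dC map_dC y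

lemma inv_Eu (y : M4) : (Eu y).map (mfderiv 𝓘(ℂ, E4) 𝓘(ℂ, E4) (fM : M4 → M4) y).toLinearMap =
    Eu (fM y) :=
  DD.map_push_of_lift fM_lift (sc lam rho).contDiff invDist_dU map_dU y

lemma al_apply (x v : E4) : al x v = v 1 - bC x * v 0 := rfl
lemma be_apply (x v : E4) : be x v = v 2 - conj (aC x) * v 0 := rfl

/-- The splitting of `ℂ⁴`. -/
lemma split_E4 (x v : E4) : v = mk4 0 (al x v) (be x v) 0 + (v 0) • ec x + mk4 0 0 0 (v 3) := by
  apply E4_ext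
  · simp [ec]
  · simp [ec, al]; ring
  · simp [ec, be]; ring
  · simp [ec]

lemma splitting_unique {x s s' c c' u u' : E4} (hs : s ∈ dS x) (hs' : s' ∈ dS x)
    (hc : c ∈ dC x) (hc' : c' ∈ dC x) (hu : u ∈ dU x) (hu' : u' ∈ dU x)
    (h : s + c + u = s' + c' + u') : s = s' ∧ c = c' ∧ u = u' := by
  rw [mem_dS] at hs hs'
  rw [mem_dC, al_apply, be_apply] at hc hc'
  rw [mem_dU, al_apply, be_apply] at hu hu'
  have e0 := congrArg (fun v : E4 => v 0) h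
  have e1 := congrArg (fun v : E4 => v 1) h
  have e2 := congrArg (fun v : E4 => v 2) h
  have e3 := congrArg (fun v : E4 => v 3) h
  simp only [PiLp.add_apply] at e0 e1 e2 e3
  rw [hs.1, hs'.1, hu.1, hu'.1] at e0
  rw [hs.2, hs'.2, hc.1, hc'.1] at e3
  have c0 : c 0 = c' 0 := by simpa using e0
  have u3 : u 3 = u' 3 := by simpa using e3
  have hc1 : c 1 = c' 1 := by
    have h1 := hc.2.1
    have h2 := hc'.2.1
    rw [c0] at h1
    linear_combination h1 - h2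
  have hc2 : c 2 = c' 2 := by
    have h1 := hc.2.2
    have h2 := hc'.2.2
    rw [c0] at h1
    linear_combination h1 - h2
  have hu1 : u 1 = u' 1 := by
    have h1 := hu.2.1
    have h2 := hu'.2.1
    rw [hu.1] at h1
    rw [hu'.1] at h2
    linear_combination h1 - h2
  have hu2 : u 2 = u' 2 := by
    have h1 := hu.2.2
    have h2 := hu'.2.2
    rw [hu.1] at h1
    rw [hu'.1] at h2
    linear_combination h1 - h2
  refine ⟨E4_ext ?_ ?_ ?_ ?_, E4_ext c0 hc1 hc2 ?_, E4_ext ?_ hu1 hu2 u3⟩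
  · rw [hs.1, hs'.1]
  · linear_combination e1 - hc1 - hu1
  · linear_combination e2 - hc2 - hu2
  · rw [hs.2, hs'.2]
  · rw [hc.1, hc'.1]
  · rw [hu.1, hu'.1]

lemma splitting_M (y : M4) (v : TangentSpace 𝓘(ℂ, E4) y) :
    ∃! p : Es y × Ec y × Eu y, v = (p.1 : TangentSpace 𝓘(ℂ, E4) y) + p.2.1 + p.2.2 := by
  obtain ⟨i, x, rfl⟩ := DD.surj_q y
  obtain ⟨w, rfl⟩ := DD.dqE_surjective i x v
  have hS : ∀ z, z ∈ dS x → (DD.dqE i x z : E4) ∈ (Es (DD.q i x) : Submodule ℂ E4) := fun z hz =>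
    (DD.dqE_mem_push_iff invDist_dS i x z).mpr hz
  have hC : ∀ z, z ∈ dC x → (DD.dqE i x z : E4) ∈ (Ec (DD.q i x) : Submodule ℂ E4) := fun z hz =>
    (DD.dqE_mem_push_iff invDist_dC i x z).mpr hz
  have hU : ∀ z, z ∈ dU x → (DD.dqE i x z : E4) ∈ (Eu (DD.q i x) : Submodule ℂ E4) := fun z hz =>
    (DD.dqE_mem_push_iff invDist_dU i x z).mpr hz
  have m1 : mk4 0 (al x w) (be x w) 0 ∈ dS x := by rw [mem_dS]; simp
  have m2 : (w 0) • ec x ∈ dC x := by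
    rw [mem_dC]
    unfold al be ec
    simp
    constructor <;> ring
  have m3 : mk4 0 0 0 (w 3) ∈ dU x := by
    rw [mem_dU]
    unfold al be
    simp
  refine ⟨⟨⟨_, hS _ m1⟩, ⟨_, hC _ m2⟩, ⟨_, hU _ m3⟩⟩, ?_, ?_⟩
  · have h := congrArg (DD.dqE i x) (split_E4 x w)
    rw [map_add, map_add] at h
    exact h
  · rintro ⟨⟨s, hs⟩, ⟨c, hc⟩, ⟨u, hu⟩⟩ h
    obtain ⟨s', rfl⟩ := DD.dqE_surjective i x s
    obtain ⟨c', rfl⟩ := DD.dqE_surjective i x c
    obtain ⟨u', rfl⟩ := DD.dqE_surjective i x u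
    have hs' : s' ∈ dS x := (DD.dqE_mem_push_iff invDist_dS i x s').mp hs
    have hc' : c' ∈ dC x := (DD.dqE_mem_push_iff invDist_dC i x c').mp hc
    have hu' : u' ∈ dU x := (DD.dqE_mem_push_iff invDist_dU i x u').mp hu
    have h1 : w = s' + c' + u' := by
      apply DD.dqE_injective i x
      rw [map_add, map_add]
      exact h
    rw [split_E4 x w] at h1
    obtain ⟨e1, e2, e3⟩ := splitting_unique hs' m1 hc' m2 hu' m3 h1.symm
    subst e1 e2 e3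
    rfl

lemma nonzero_M (y : M4) : Es y ≠ ⊥ ∧ Ec y ≠ ⊥ ∧ Eu y ≠ ⊥ := by
  obtain ⟨i, x, rfl⟩ := DD.surj_q y
  have key : ∀ (d : E4 → Submodule ℂ E4) (_ : DD.InvDist d) (z : E4), z ∈ d x → z ≠ 0 →
      (DD.push d (DD.q i x)) ≠ ⊥ := by
    intro d hd z hz hz0 hbot
    have h1 : (DD.dqE i x z : E4) ∈ (DD.push d (DD.q i x) : Submodule ℂ E4) :=
      (DD.dqE_mem_push_iff hd i x z).mpr hz
    rw [hbot] at h1
    apply hz0
    apply DD.dqE_injective i x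
    rw [map_zero]
    exact h1
  refine ⟨key dS invDist_dS (mk4 0 1 0 0) ?_ ?_, key dC invDist_dC (ec x) ?_ ?_,
    key dU invDist_dU (mk4 0 0 0 1) ?_ ?_⟩
  · rw [mem_dS]; simp
  · intro h
    have := congrArg (fun v : E4 => v 1) h
    simp at this
  · rw [← span_ec x]
    exact Submodule.subset_span ⟨0, rfl⟩
  · intro h
    have := congrArg (fun v : E4 => v 0) h
    simp [ec] at this
  · rw [← span_eu x]
    exact Submodule.subset_span ⟨0, rfl⟩
  · intro h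
    have := congrArg (fun v : E4 => v 3) h
    simp at this

/-! ### Domination -/

lemma dominated_M (g : RiemannianMetric E4 M4) :
    ∃ k : ℕ, 1 ≤ k ∧ DominatedAtTime g (fM : M4 → M4) Es Ec Eu k := by
  obtain ⟨C₁, hC₁, h1⟩ := DD.exists_inner_le g gM
  obtain ⟨C₂, hC₂, h2⟩ := DD.exists_inner_le gM g
  set C := C₁ * C₂ with hC
  have hC1 : 1 ≤ C := by nlinarith
  have hl : Complex.normSq lam < 1 := by
    rw [Complex.normSq_eq_norm_sq]
    have := norm_lam_lt_one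
    have := norm_lam_pos
    nlinarith
  have hl0 : 0 ≤ Complex.normSq lam := Complex.normSq_nonneg _
  have hr : 1 < Complex.normSq (rho : ℂ) := by
    rw [Complex.normSq_ofReal]
    have := one_lt_rho
    nlinarith
  -- choose k
  obtain ⟨k₁, hk₁⟩ : ∃ k₁ : ℕ, ∀ k ≥ k₁, Complex.normSq lam ^ k < (C ^ 2)⁻¹ := by
    have h := tendsto_pow_atTop_nhds_zero_of_lt_one hl0 hl
    have hpos : 0 < (C ^ 2)⁻¹ := by positivity
    obtain ⟨k₁, hk⟩ := (h.eventually (gt_mem_nhds hpos)).exists_forall_of_atTop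
    exact ⟨k₁, hk⟩
  obtain ⟨k₂, hk₂⟩ : ∃ k₂ : ℕ, ∀ k ≥ k₂, C ^ 2 < Complex.normSq (rho : ℂ) ^ k := by
    have h := tendsto_pow_atTop_atTop_of_one_lt hr
    obtain ⟨k₂, hk⟩ := (h.eventually (eventually_gt_atTop (C ^ 2))).exists_forall_of_atTop
    exact ⟨k₂, hk⟩
  set k := max 1 (max k₁ k₂) with hk
  have hk1 := hk₁ k ((le_max_left _ _).trans (le_max_right _ _))
  have hk2 := hk₂ k ((le_max_right _ _).trans (le_max_right _ _))
  refine ⟨k, le_max_left _ _, fun y => ?_⟩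
  have hC0 : 0 < C := by linarith
  have hC₁0 : 0 < C₁ := by linarith
  have hC₂0 : 0 < C₂ := by linarith
  have hCsq : C ^ 2 * (C ^ 2)⁻¹ = 1 := mul_inv_cancel₀ (by positivity)
  -- estimates in the three bundles
  have estS : ∀ u ∈ Es y, g.inner y u u = 1 →
      g.inner _ (mfderiv 𝓘(ℂ, E4) 𝓘(ℂ, E4) (fM : M4 → M4)^[k] y u)
        (mfderiv 𝓘(ℂ, E4) 𝓘(ℂ, E4) (fM : M4 → M4)^[k] y u) < C⁻¹ := by
    intro u hu hu1
    have e1 := h1 _ (mfderiv 𝓘(ℂ, E4) 𝓘(ℂ, E4) (fM : M4 → M4)^[k] y u)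
    rw [inner_s k y u hu, map_pow] at e1
    have e2 := h2 y u
    rw [hu1, mul_one] at e2
    have e3 : 0 ≤ gM.inner y u u := inner_nonneg gM y u
    have e4 : C₁ * (Complex.normSq lam ^ k * gM.inner y u u) ≤
        C * Complex.normSq lam ^ k := by
      rw [hC]
      have : Complex.normSq lam ^ k * gM.inner y u u ≤ Complex.normSq lam ^ k * C₂ :=
        mul_le_mul_of_nonneg_left e2 (pow_nonneg hl0 k)
      calc C₁ * (Complex.normSq lam ^ k * gM.inner y u u)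
          ≤ C₁ * (Complex.normSq lam ^ k * C₂) := mul_le_mul_of_nonneg_left this hC₁0.le
        _ = _ := by ring
    have e5 : C * Complex.normSq lam ^ k < C * (C ^ 2)⁻¹ := mul_lt_mul_of_pos_left hk1 hC0
    have e6 : C * (C ^ 2)⁻¹ = C⁻¹ := by field_simp
    linarith
  have estC : ∀ v ∈ Ec y, g.inner y v v = 1 →
      C⁻¹ ≤ g.inner _ (mfderiv 𝓘(ℂ, E4) 𝓘(ℂ, E4) (fM : M4 → M4)^[k] y v)
        (mfderiv 𝓘(ℂ, E4) 𝓘(ℂ, E4) (fM : M4 → M4)^[k] y v) ∧
      g.inner _ (mfderiv 𝓘(ℂ, E4) 𝓘(ℂ, E4) (fM : M4 → M4)^[k] y v)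
        (mfderiv 𝓘(ℂ, E4) 𝓘(ℂ, E4) (fM : M4 → M4)^[k] y v) ≤ C := by
    intro v hv hv1
    have e1 := h1 _ (mfderiv 𝓘(ℂ, E4) 𝓘(ℂ, E4) (fM : M4 → M4)^[k] y v)
    have e2 := h2 _ (mfderiv 𝓘(ℂ, E4) 𝓘(ℂ, E4) (fM : M4 → M4)^[k] y v)
    rw [inner_c k y v hv] at e1 e2
    have e3 := h1 y v
    have e4 := h2 y v
    rw [hv1] at e3 e4
    constructor
    · rw [inv_le_iff_one_le_mul₀ hC0]
      have : gM.inner y v v * C₁ ≤ C₂ * g.inner _
        (mfderiv 𝓘(ℂ, E4) 𝓘(ℂ, E4) (fM : M4 → M4)^[k] y v)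
        (mfderiv 𝓘(ℂ, E4) 𝓘(ℂ, E4) (fM : M4 → M4)^[k] y v) * C₁ :=
        mul_le_mul_of_nonneg_right e2 hC₁0.le
      rw [hC]
      nlinarith
    · rw [hC]
      have : C₁ * gM.inner y v v ≤ C₁ * (C₂ * 1) := mul_le_mul_of_nonneg_left e4 hC₁0.le
      linarith
  have estU : ∀ w ∈ Eu y, g.inner y w w = 1 →
      C < g.inner _ (mfderiv 𝓘(ℂ, E4) 𝓘(ℂ, E4) (fM : M4 → M4)^[k] y w)
        (mfderiv 𝓘(ℂ, E4) 𝓘(ℂ, E4) (fM : M4 → M4)^[k] y w) := by
    intro w hw hw1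
    have e2 := h2 _ (mfderiv 𝓘(ℂ, E4) 𝓘(ℂ, E4) (fM : M4 → M4)^[k] y w)
    rw [inner_u k y w hw, map_pow] at e2
    have e3 := h1 y w
    rw [hw1] at e3
    -- 1 ≤ C₁ * gM, so gM ≥ 1 / C₁
    have e4 : C ^ 2 * gM.inner y w w < Complex.normSq (rho : ℂ) ^ k * gM.inner y w w := by
      apply mul_lt_mul_of_pos_right hk2
      by_contra hcon
      push Not at hcon
      nlinarith
    have e5 : C ^ 2 ≤ C ^ 2 * (C₁ * gM.inner y w w) := by
      have := mul_le_mul_of_nonneg_left e3 (by positivity : 0 ≤ C ^ 2)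
      linarith
    have e6 : C ^ 2 < C * g.inner _ (mfderiv 𝓘(ℂ, E4) 𝓘(ℂ, E4) (fM : M4 → M4)^[k] y w)
        (mfderiv 𝓘(ℂ, E4) 𝓘(ℂ, E4) (fM : M4 → M4)^[k] y w) := by
      have e7 : C₁ * (C ^ 2 * gM.inner y w w) < C₁ * (C₂ * g.inner _
          (mfderiv 𝓘(ℂ, E4) 𝓘(ℂ, E4) (fM : M4 → M4)^[k] y w)
          (mfderiv 𝓘(ℂ, E4) 𝓘(ℂ, E4) (fM : M4 → M4)^[k] y w)) :=
        mul_lt_mul_of_pos_left (lt_of_lt_of_le e4 e2) hC₁0
      calc C ^ 2 ≤ C ^ 2 * (C₁ * gM.inner y w w) := e5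
        _ = C₁ * (C ^ 2 * gM.inner y w w) := by ring
        _ < _ := e7
        _ = _ := by rw [hC]; ring
    have e8 : C * C < C * g.inner _ (mfderiv 𝓘(ℂ, E4) 𝓘(ℂ, E4) (fM : M4 → M4)^[k] y w)
        (mfderiv 𝓘(ℂ, E4) 𝓘(ℂ, E4) (fM : M4 → M4)^[k] y w) := by
      calc C * C = C ^ 2 := by ring
        _ < _ := e6
    exact lt_of_mul_lt_mul_left e8 hC0.le
  have hCinv : C⁻¹ ≤ 1 := inv_le_one_of_one_le₀ hC1
  refine ⟨?_, ?_, ?_, ?_⟩
  · intro u hu hu1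
    have := estS u hu hu1
    unfold lengthImage
    rw [Real.sqrt_lt' one_pos]
    linarith
  · intro w hw hw1
    have := estU w hw hw1
    unfold lengthImage
    rw [Real.lt_sqrt zero_le_one]
    linarith
  · intro u hu v hv hu1 hv1
    have a := estS u hu hu1
    have b := (estC v hv hv1).1
    unfold lengthImage
    exact Real.sqrt_lt_sqrt (inner_nonneg g _ _) (lt_of_lt_of_le a b)
  · intro v hv w hw hv1 hw1
    have a := (estC v hv hv1).2
    have b := estU w hw hw1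
    unfold lengthImage
    exact Real.sqrt_lt_sqrt (inner_nonneg g _ _) (lt_of_le_of_lt a b)

/-- The fourfold diffeomorphism is partially hyperbolic. -/
theorem isPartiallyHyperbolic_M : IsPartiallyHyperbolic (fM : M4 → M4) Es Ec Eu where
  continuous_s := cont_Es
  continuous_c := cont_Ec
  continuous_u := cont_Eu
  nonzero := nonzero_M
  splitting := splitting_M
  invariant_s := inv_Es
  invariant_c := inv_Ec
  invariant_u := inv_Eu
  metric := ⟨gM⟩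
  dominated := dominated_M

end Pool.Agent.H49
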