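import Pool.Agent.H49.Four5

/-!
# The complex fourfold: the center bundle is nowhere holomorphic; the center fibration
-/

open scoped Manifold ContDiff Topology ComplexConjugate OnePoint
open Set Filter

namespace Pool.Agent.H49

open PH

lemma not_differentiableAt_conj_zero : ¬ DifferentiableAt ℂ (fun t : ℂ => conj t) 0 := by
  intro h
  have h1 : HasFDerivAt (fun t : ℂ => conj t)
      ((fderiv ℂ (fun t : ℂ => conj t) 0).restrictScalars ℝ) 0 :=
    h.hasFDerivAt.restrictScalars ℝ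
  have h2 : HasFDerivAt (fun t : ℂ => conj t) (Complex.conjCLE : ℂ →L[ℝ] ℂ) 0 :=
    Complex.conjCLE.hasFDerivAt
  have h3 := h1.unique h2
  have e1 : fderiv ℂ (fun t : ℂ => conj t) 0 1 = 1 := by
    have := DFunLike.congr_fun h3 1
    simpa using this
  have e2 : fderiv ℂ (fun t : ℂ => conj t) 0 Complex.I = -Complex.I := by
    have := DFunLike.congr_fun h3 Complex.I
    simpa using this
  have e3 : fderiv ℂ (fun t : ℂ => conj t) 0 Complex.I = Complex.I := by
    have : Complex.I = Complex.I • (1 : ℂ) := by simp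
    conv_lhs => rw [this]
    rw [map_smul, e1]
    simp
  rw [e2] at e3
  have := congrArg Complex.im e3
  simp at this
  norm_num at this

lemma bC_line (x : E4) (t : ℂ) :
    bC (x + t • mk4 0 0 1 0) = bC x - conj t / den (x 0) := by
  unfold bC
  simp only [PiLp.add_apply, PiLp.smul_apply, mk4_0, mk4_1, mk4_2, smul_eq_mul, mul_zero,
    add_zero, mul_one, map_add]
  ring

/-- The center bundle is not holomorphic near any point. -/
theorem not_holomorphicAt_M (y₀ : M4) : ¬ IsHolomorphicAt Ec y₀ := by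
  rintro ⟨U, r, X, hU, hy₀, hX, hspan⟩
  obtain ⟨i, x₀, rfl⟩ := DD.surj_q y₀
  -- one of the fields does not vanish
  obtain ⟨j, hj⟩ : ∃ j, X j (DD.q i x₀) ≠ 0 := by
    by_contra hcon
    push Not at hcon
    apply (nonzero_M (DD.q i x₀)).2.1
    rw [← hspan _ hy₀, Submodule.span_eq_bot]
    rintro v ⟨j, rfl⟩
    exact hcon j
  have hXj : MDifferentiableAt 𝓘(ℂ, E4) 𝓘(ℂ, E4).tangent (X j).sec (DD.q i x₀) :=
    (hX j _ hy₀).mdifferentiableAt (hU.mem_nhds hy₀)
  obtain ⟨ξ, hξd, hξ⟩ := DD.exists_pullback (X j) hXj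
  have hmem : ∀ᶠ x in 𝓝 x₀, ξ x ∈ dC x := by
    have hc : ∀ᶠ x in 𝓝 x₀, DD.q i x ∈ U :=
      (DD.loc_q i).continuous.continuousAt.eventually (hU.mem_nhds hy₀)
    filter_upwards [hc] with x hx
    have h1 : X j (DD.q i x) ∈ Ec (DD.q i x) := by
      rw [← hspan _ hx]
      exact Submodule.subset_span ⟨j, rfl⟩
    rw [← hξ x] at h1
    exact (DD.dqE_mem_push_iff invDist_dC i x (ξ x)).mp h1
  have hne : ξ x₀ 0 ≠ 0 := by
    intro h0
    have h1 := hmem.self_of_nhds
    rw [mem_dC, al_apply, be_apply, h0] at h1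
    apply hj
    have h2 : ξ x₀ = 0 := by
      apply E4_ext
      · exact h0
      · simpa using h1.2.1
      · simpa using h1.2.2
      · exact h1.1
    have h3 := hξ x₀
    rw [h2, map_zero] at h3
    exact h3.symm
  -- restrict to the line
  set l : ℂ → E4 := fun t => x₀ + t • mk4 0 0 1 0 with hl
  have hl0 : l 0 = x₀ := by simp [hl]
  have hld : DifferentiableAt ℂ l 0 := by
    apply DifferentiableAt.const_add
    exact differentiableAt_id.smul_const _
  have hξl : DifferentiableAt ℂ (fun t => ξ (l t)) 0 := by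
    have : DifferentiableAt ℂ ξ (l 0) := by rw [hl0]; exact hξd
    exact this.comp 0 hld
  have hcoord : ∀ k : Fin 4, DifferentiableAt ℂ (fun t => ξ (l t) k) 0 := fun k =>
    ((EuclideanSpace.proj (𝕜 := ℂ) k : E4 →L[ℂ] ℂ).differentiableAt).comp (0 : ℂ) hξl
  have hη : DifferentiableAt ℂ (fun t => ξ (l t) 1 / ξ (l t) 0) 0 := by
    apply (hcoord 1).div (hcoord 0)
    rw [hl0]
    exact hne
  have hev : ∀ᶠ t in 𝓝 (0 : ℂ), conj t = den (x₀ 0) * (bC x₀ - ξ (l t) 1 / ξ (l t) 0) := by
    have hcl : ContinuousAt l 0 := hld.continuousAt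
    have h1 : ∀ᶠ t in 𝓝 (0 : ℂ), ξ (l t) ∈ dC (l t) := by
      have : ∀ᶠ x in 𝓝 (l 0), ξ x ∈ dC x := by rw [hl0]; exact hmem
      exact hcl.eventually this
    have h2 : ∀ᶠ t in 𝓝 (0 : ℂ), ξ (l t) 0 ≠ 0 := by
      apply (hcoord 0).continuousAt.eventually_ne
      rw [hl0]
      exact hne
    filter_upwards [h1, h2] with t ht1 ht2
    rw [mem_dC, al_apply] at ht1
    have h3 : ξ (l t) 1 / ξ (l t) 0 = bC (l t) := by
      rw [div_eq_iff ht2]
      linear_combination ht1.2.1
    rw [h3, hl, bC_line]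
    have := den_ne_zero (x₀ 0)
    field_simp
    ring
  apply not_differentiableAt_conj_zero
  have h4 : DifferentiableAt ℂ (fun t => den (x₀ 0) * (bC x₀ - ξ (l t) 1 / ξ (l t) 0)) 0 :=
    (hη.const_sub _).const_mul _
  exact h4.congr_of_eventuallyEq hev

/-! ### The fibration -/

lemma phi_lift_hasFDerivAt (v : V3) (z : ℂ) :
    HasFDerivAt (fun z : ℂ => Phi v z)
      ((ContinuousLinearMap.id ℂ ℂ).smulRight (mk4 1 v.2.1 (conj v.1) 0)) z := by
  have h1 : ∀ z : ℂ, Phi v z = Phi v 0 + z • mk4 1 v.2.1 (conj v.1) 0 := by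
    intro z
    apply E4_ext
    · simp [Phi]
    · simp [Phi]; ring
    · simp [Phi]; ring
    · simp [Phi]
  have h2 : HasFDerivAt (fun z : ℂ => Phi v 0 + z • mk4 1 v.2.1 (conj v.1) 0)
      ((ContinuousLinearMap.id ℂ ℂ).smulRight (mk4 1 v.2.1 (conj v.1) 0)) z := by
    have := ((ContinuousLinearMap.id ℂ ℂ).smulRight
        (mk4 1 v.2.1 (conj v.1) 0)).hasFDerivAt (x := z)
    exact this.const_add (Phi v 0)
  exact h2.congr_of_eventuallyEq (Eventually.of_forall h1)

lemma ec_Phi (v : V3) (z : ℂ) : ec (Phi v z) = mk4 1 v.2.1 (conj v.1) 0 := by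
  unfold ec
  rw [aC_Phi, bC_Phi]

/-- The plaques are holomorphic immersions tangent to the center bundle. -/
lemma plaque (i : Bool) (v : V3) (z : ℂ) :
    MDifferentiableAt 𝓘(ℂ, ℂ) 𝓘(ℂ, E4) (fun z : ℂ => DD.q i (Phi v z)) z ∧
    Function.Injective
      (mfderiv 𝓘(ℂ, ℂ) 𝓘(ℂ, E4) (fun z : ℂ => DD.q i (Phi v z)) z) ∧
    LinearMap.range
      (mfderiv 𝓘(ℂ, ℂ) 𝓘(ℂ, E4) (fun z : ℂ => DD.q i (Phi v z)) z).toLinearMap =
        Ec (DD.q i (Phi v z)) := by
  have hF := phi_lift_hasFDerivAt v z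
  have hF' : MDifferentiableAt 𝓘(ℂ, ℂ) 𝓘(ℂ, E4) (fun z : ℂ => Phi v z) z :=
    hF.differentiableAt.mdifferentiableAt
  have hq : MDifferentiableAt 𝓘(ℂ, E4) 𝓘(ℂ, E4) (DD.q i) (Phi v z) :=
    DD.mdifferentiableAt_q i _
  have hcomp := mfderiv_comp z hq hF'
  have h5 : mfderiv 𝓘(ℂ, ℂ) 𝓘(ℂ, E4) (fun z : ℂ => Phi v z) z =
      (ContinuousLinearMap.id ℂ ℂ).smulRight (mk4 1 v.2.1 (conj v.1) 0) := by
    rw [mfderiv_eq_fderiv]
    exact hF.fderiv
  rw [h5] at hcomp
  have happ : ∀ h : ℂ, (mfderiv 𝓘(ℂ, ℂ) 𝓘(ℂ, E4)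
      (fun z : ℂ => DD.q i (Phi v z)) z h : E4) =
      DD.dqE i (Phi v z) (h • ec (Phi v z)) := by
    intro h
    rw [ec_Phi]
    exact DFunLike.congr_fun hcomp h
  have hinj : ∀ h h' : ℂ, DD.dqE i (Phi v z) (h • ec (Phi v z)) =
        DD.dqE i (Phi v z) (h' • ec (Phi v z)) → h = h' := by
    intro h h' h1
    have h2 := DD.dqE_injective _ _ h1
    have h3 := congrArg (fun w : E4 => w 0) h2
    simpa [ec] using h3
  refine ⟨hq.comp z hF', ?_, ?_⟩
  · intro h h' heq
    exact hinj h h' ((happ h).symm.trans (heq.trans (happ h')))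
  · have h1 : Ec (DD.q i (Phi v z)) =
        (dC (Phi v z)).map (DD.dqE i (Phi v z)).toLinearMap :=
      DD.push_q invDist_dC i _
    rw [h1, ← span_ec]
    ext w
    constructor
    · rintro ⟨h, rfl⟩
      refine ⟨(show ℂ from h) • ec (Phi v z), ?_, (happ h).symm⟩
      exact Submodule.smul_mem _ _ (Submodule.subset_span ⟨0, rfl⟩)
    · rintro ⟨u, hu, rfl⟩
      rw [range_const] at hu
      obtain ⟨c, rfl⟩ := Submodule.mem_span_singleton.mp hu
      exact ⟨c, happ _⟩

/-- The charted space structure of the torus. -/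
@[instance_reducible]
noncomputable def chartedTorus : ChartedSpace R6 T6 :=
  isLocalHomeomorph_piT.chartedSpace isOpenQuotientMap_piT.surjective

/-- The projection of the fourfold to the torus. -/
def prT (y : M4) : T6 := (show TP from y).1

/-- The global trivialization. -/
noncomputable def trivT : Bundle.Trivialization P1 prT where
  toOpenPartialHomeomorph := (Homeomorph.refl TP).toOpenPartialHomeomorph
  baseSet := univ
  open_baseSet := isOpen_univ
  source_eq := rfl
  target_eq := by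
    change univ = univ ×ˢ univ
    rw [univ_prod_univ]
  proj_toFun _ _ := rfl

/-- The foliation chart associated with an open embedding `ℂ → P¹`. -/
noncomputable def folMap (ψ : ℂ → P1) (p : ℂ × T6) : TP := (p.2, ψ p.1)

lemma folMap_emb {ψ : ℂ → P1} (hψ : Topology.IsOpenEmbedding ψ) :
    Topology.IsOpenEmbedding (folMap ψ) := by
  have h2 : Topology.IsOpenEmbedding (Prod.map ψ (id : T6 → T6)) :=
    hψ.prodMap Topology.IsOpenEmbedding.id
  exact (Homeomorph.prodComm P1 T6).isOpenEmbedding.comp h2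

/-- Foliation charts of the center fibration. -/
lemma foliation_chart (x₀ : M4) : ∃ e : OpenPartialHomeomorph (ℂ × T6) M4, x₀ ∈ e.target ∧
    IsFoliationChart Ec prT e := by
  -- a general construction
  have key : ∀ (ψ : ℂ → P1) (hψ : Topology.IsOpenEmbedding ψ) (i : Bool)
      (_ : ∀ t : T6, ∃ v : V3, ∀ z : ℂ, (folMap ψ (z, t) : TP) = DD.q i (Phi v z))
      (_ : x₀ ∈ range (folMap ψ)), ∃ e : OpenPartialHomeomorph (ℂ × T6) M4, x₀ ∈ e.target ∧
      IsFoliationChart Ec prT e := by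
    intro ψ hψ i hlift hx₀
    haveI : Nonempty (ℂ × T6) := ⟨(0, 0)⟩
    refine ⟨(folMap_emb hψ).toOpenPartialHomeomorph (folMap ψ), ?_, ?_⟩
    · rw [Topology.IsOpenEmbedding.toOpenPartialHomeomorph_target]
      exact hx₀
    · intro z t _
      obtain ⟨v, hv⟩ := hlift t
      have hfun : (fun z : ℂ => (folMap ψ (z, t) : M4)) =
          fun z : ℂ => DD.q i (Phi v z) := funext hv
      have hpl := plaque i v z
      rw [← hfun] at hpl
      have hval : DD.q i (Phi v z) = (folMap ψ (z, t) : M4) :=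
        (congrFun hfun z).symm
      rw [hval] at hpl
      exact ⟨rfl, hpl⟩
  obtain ⟨t, s⟩ := x₀
  induction s using OnePoint.rec with
  | infty =>
    refine key (fun z : ℂ => negInv ((z : ℂ) : P1)) ?_ true ?_ ?_
    · exact negInvHomeo.isOpenEmbedding.comp OnePoint.isOpenEmbedding_coe
    · intro t
      obtain ⟨v, hv⟩ := piV_surjective (Saut.symm t)
      refine ⟨v, fun z => ?_⟩
      rw [q_true]
      unfold p0
      rw [Psi_Phi, hv]
      exact Prod.ext (Saut.apply_symm_apply t).symm rfl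
    · exact ⟨(0, t), Prod.ext rfl negInv_zero⟩
  | coe w =>
    refine key (fun z : ℂ => ((z : ℂ) : P1)) OnePoint.isOpenEmbedding_coe false ?_ ?_
    · intro t
      obtain ⟨v, hv⟩ := piV_surjective t
      refine ⟨v, fun z => ?_⟩
      rw [q_false]
      unfold p0
      rw [Psi_Phi, hv]
      rfl
    · exact ⟨(w, t), rfl⟩

/-- The center bundle is tangent to an invariant fibration by compact leaves. -/
theorem isFibered_M : IsFibered (fM : M4 → M4) Ec := by
  refine ⟨T6, inferInstance, 6, chartedTorus, P1, inferInstance, ℂ, inferInstance, inferInstance,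
    prT, Aaut, inferInstance, inferInstance, inferInstance, inferInstance, ?_, ?_, ?_,
    foliation_chart⟩
  · have : IsOpenQuotientMap (Prod.fst : T6 × P1 → T6) :=
      ⟨Prod.fst_surjective, continuous_fst, isOpenMap_fst⟩
    exact this.isQuotientMap
  · exact fun b => ⟨trivT, mem_univ b⟩
  · intro x
    rfl

end Pool.Agent.H49
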