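import Pool.Agent.H49.Four6
import Pool.Agent.H49.CDefs

/-!
# The complex fourfold: the statements in terms of `ComplexManifold`
-/

open scoped Manifold ContDiff Topology ComplexConjugate OnePoint
open Set Filter

namespace Pool.Agent.H49

/-- The complex fourfold. -/
noncomputable def MC : ComplexManifold 4 where
  carrier := M4
  topology := (inferInstance : TopologicalSpace M4)
  charts := (inferInstance : ChartedSpace E4 M4)
  analytic := (inferInstance : IsManifold 𝓘(ℂ, E4) ω M4)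

/-- The biholomorphism. -/
noncomputable def fC : MC.carrier ≃ MC.carrier := fM.toEquiv

/-- The three distributions. -/
noncomputable def EsC : Distribution MC := Es
/-- The three distributions. -/
noncomputable def EcC : Distribution MC := Ec
/-- The three distributions. -/
noncomputable def EuC : Distribution MC := Eu

lemma D_eq (f : M4 → M4) (x : M4) : (D (M := MC) (N := MC) f x) =
    (mfderiv 𝓘(ℂ, E4) 𝓘(ℂ, E4) f x).toLinearMap := rfl

lemma cont_C {E : PH.Distribution E4 M4} (h : PH.IsContinuousSubbundle E) :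
    IsContinuousSubbundle (M := MC) E := by
  intro x₀
  obtain ⟨U, r, X, hU, hx, hX, h2⟩ := h x₀
  exact ⟨U, r, X, hU, hx, hX, fun x hx => (h2 x hx).2, fun x hx => (h2 x hx).1⟩

lemma hol_C {E : PH.Distribution E4 M4} {x₀ : M4} (h : IsHolomorphicNear (M := MC) E x₀) :
    PH.IsHolomorphicAt E x₀ := h

/-- The metric. -/
noncomputable def gOf (g : RMetric MC) : PH.RiemannianMetric E4 M4 where
  inner := g.inner
  symm := g.symm
  add_left := g.add_left
  smul_left := g.smul_left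
  pos := g.pos
  cont := g.cont

/-- The metric. -/
noncomputable def gTo (g : PH.RiemannianMetric E4 M4) : RMetric MC where
  inner := g.inner
  symm := g.symm
  add_left := g.add_left
  smul_left := g.smul_left
  pos := g.pos
  cont := g.cont

lemma len_D (g : RMetric MC) (k : ℕ) (x : M4) (v : Tan MC x) :
    g.len (D (M := MC) (N := MC) fC^[k] x v) = PH.lengthImage (gOf g) (fM : M4 → M4) k x v := rfl

lemma len_one (g : RMetric MC) (x : M4) (v : Tan MC x) :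
    g.len v = 1 ↔ PH.IsUnitVector (gOf g) x v := by
  unfold RMetric.len PH.IsUnitVector
  rw [Real.sqrt_eq_one]
  rfl

lemma dominated_C (g : RMetric MC) : ∃ k : ℕ, 1 ≤ k ∧ IsDominated g fC^[k] EsC EcC EuC := by
  obtain ⟨k, hk, h⟩ := dominated_M (gOf g)
  refine ⟨k, hk, fun x => ?_⟩
  obtain ⟨h1, h2, h3, h4⟩ := h x
  refine ⟨fun u hu hu1 => ?_, fun u hu hu1 => ?_, fun u hu v hv hu1 hv1 => ?_,
    fun u hu v hv hu1 hv1 => ?_⟩
  · exact h1 u hu ((len_one g x u).1 hu1)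
  · exact h2 u hu ((len_one g x u).1 hu1)
  · exact h3 u hu v hv ((len_one g x u).1 hu1) ((len_one g x v).1 hv1)
  · exact h4 u hu v hv ((len_one g x u).1 hu1) ((len_one g x v).1 hv1)

section Split

variable {V : Type*} [AddCommGroup V] [Module ℂ V] {S C U : Submodule ℂ V}

lemma split_top (h : ∀ v : V, ∃! p : S × C × U, v = (p.1 : V) + p.2.1 + p.2.2) :
    S ⊔ C ⊔ U = ⊤ := by
  rw [eq_top_iff]
  intro v _
  obtain ⟨⟨s, c, u⟩, hv, -⟩ := h v
  rw [hv]
  exact Submodule.add_mem_sup (Submodule.add_mem_sup s.2 c.2) u.2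

lemma split_sc (h : ∀ v : V, ∃! p : S × C × U, v = (p.1 : V) + p.2.1 + p.2.2) :
    S ⊓ C = ⊥ := by
  rw [eq_bot_iff]
  rintro v ⟨hs, hc⟩
  obtain ⟨p, -, hp⟩ := h v
  have h1 := hp ⟨⟨v, hs⟩, 0, 0⟩ (by simp)
  have h2 := hp ⟨0, ⟨v, hc⟩, 0⟩ (by simp)
  have h3 := congrArg (fun q : S × C × U => (q.1 : V)) (h1.trans h2.symm)
  simpa using h3

lemma split_scu (h : ∀ v : V, ∃! p : S × C × U, v = (p.1 : V) + p.2.1 + p.2.2) :
    (S ⊔ C) ⊓ U = ⊥ := by
  rw [eq_bot_iff]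
  rintro v ⟨hsc, hu⟩
  obtain ⟨s, hs, c, hc, rfl⟩ := Submodule.mem_sup.mp hsc
  obtain ⟨p, -, hp⟩ := h (s + c)
  have h1 := hp ⟨⟨s, hs⟩, ⟨c, hc⟩, 0⟩ (by simp)
  have h2 := hp ⟨0, 0, ⟨s + c, hu⟩⟩ (by simp)
  have h3 := congrArg (fun q : S × C × U => (q.2.2 : V)) (h1.trans h2.symm)
  simpa using h3.symm

end Split

lemma split_C (y : M4) : Es y ⊔ Ec y ⊔ Eu y = ⊤ ∧ Es y ⊓ Ec y = ⊥ ∧ (Es y ⊔ Ec y) ⊓ Eu y = ⊥ :=
  ⟨split_top (splitting_M y), split_sc (splitting_M y), split_scu (splitting_M y)⟩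

theorem isPartiallyHyperbolic_C : IsPartiallyHyperbolic fC EsC EcC EuC where
  holomorphic x := (fM.contMDiff.mdifferentiable (by simp)) x
  holomorphic_inverse x := (fM.symm.contMDiff.mdifferentiable (by simp)) x
  stable := ⟨cont_C cont_Es, fun x => (nonzero_M x).1, inv_Es⟩
  center := ⟨cont_C cont_Ec, fun x => (nonzero_M x).2.1, inv_Ec⟩
  unstable := ⟨cont_C cont_Eu, fun x => (nonzero_M x).2.2, inv_Eu⟩
  splitting_top x := (split_C x).1
  splitting_sc x := (split_C x).2.1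
  splitting_scu x := (split_C x).2.2
  metric := ⟨gTo gM⟩
  dominated := dominated_C

/-! ### The fibration -/

/-- `ℂ¹`. -/
abbrev E1 : Type := EuclideanSpace ℂ (Fin 1)

/-- The identification of `ℂ¹` and `ℂ`. -/
noncomputable def L1 : E1 ≃L[ℂ] ℂ :=
  (EuclideanSpace.equiv (Fin 1) ℂ).trans (ContinuousLinearEquiv.funUnique (Fin 1) ℂ ℂ)

lemma plaque_L1 (s : ℂ → M4) (z : E1) (E : Submodule ℂ E4)
    (h : MDifferentiableAt 𝓘(ℂ, ℂ) 𝓘(ℂ, E4) s (L1 z) ∧
      Function.Injective (mfderiv 𝓘(ℂ, ℂ) 𝓘(ℂ, E4) s (L1 z)) ∧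
      LinearMap.range (mfderiv 𝓘(ℂ, ℂ) 𝓘(ℂ, E4) s (L1 z)).toLinearMap = E) :
    MDifferentiableAt 𝓘(ℂ, E1) 𝓘(ℂ, E4) (fun z => s (L1 z)) z ∧
      Function.Injective (mfderiv 𝓘(ℂ, E1) 𝓘(ℂ, E4) (fun z => s (L1 z)) z) ∧
      LinearMap.range (mfderiv 𝓘(ℂ, E1) 𝓘(ℂ, E4) (fun z => s (L1 z)) z).toLinearMap = E := by
  have hL : MDifferentiableAt 𝓘(ℂ, E1) 𝓘(ℂ, ℂ) (fun z : E1 => L1 z) z :=
    L1.differentiableAt.mdifferentiableAt
  have hcomp := mfderiv_comp z h.1 hL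
  have h5 : mfderiv 𝓘(ℂ, E1) 𝓘(ℂ, ℂ) (fun z : E1 => L1 z) z = (L1 : E1 →L[ℂ] ℂ) := by
    rw [mfderiv_eq_fderiv]
    exact L1.hasFDerivAt.fderiv
  rw [h5] at hcomp
  have happ : ∀ v : E1, (mfderiv 𝓘(ℂ, E1) 𝓘(ℂ, E4) (fun z => s (L1 z)) z v : E4) =
      (mfderiv 𝓘(ℂ, ℂ) 𝓘(ℂ, E4) s (L1 z) (L1 v) : E4) := fun v => DFunLike.congr_fun hcomp v
  refine ⟨h.1.comp z hL, ?_, ?_⟩
  · intro v v' hv
    apply L1.injective
    exact h.2.1 ((happ v).symm.trans (hv.trans (happ v')))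
  · rw [← h.2.2]
    ext w
    constructor
    · rintro ⟨v, rfl⟩
      exact ⟨L1 v, (happ v).symm⟩
    · rintro ⟨v, rfl⟩
      refine ⟨L1.symm v, ?_⟩
      refine (happ (L1.symm v)).trans ?_
      rw [L1.apply_symm_apply]
      rfl

/-- Foliation charts. -/
lemma foliation_chart_C (x₀ : M4) : ∃ e : OpenPartialHomeomorph (E1 × T6) M4, x₀ ∈ e.target ∧
    ∀ z b, (z, b) ∈ e.source → prT (e (z, b)) = b ∧
      IsPlaqueAt (M := MC) (c := 1) (fun z => e (z, b)) z (EcC (e (z, b))) := by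
  obtain ⟨e, he, h⟩ := foliation_chart x₀
  let H : E1 × T6 ≃ₜ ℂ × T6 := L1.toHomeomorph.prodCongr (Homeomorph.refl T6)
  refine ⟨H.toOpenPartialHomeomorph.trans e, ?_, ?_⟩
  · simpa using he
  · intro z b hzb
    have hs : (L1 z, b) ∈ e.source := by
      simpa [H] using hzb
    obtain ⟨h1, h2⟩ := h (L1 z) b hs
    exact ⟨h1, plaque_L1 (fun z => e (z, b)) z _ h2⟩

theorem isFibered_C : IsFibered (M := MC) fC EcC := by
  refine ⟨T6, inferInstance, 6, chartedTorus, P1, inferInstance, prT, Aaut, 1,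
    inferInstance, inferInstance, inferInstance, inferInstance, ?_, ?_, ?_, foliation_chart_C⟩
  · have : IsOpenQuotientMap (Prod.fst : T6 × P1 → T6) :=
      ⟨Prod.fst_surjective, continuous_fst, isOpenMap_fst⟩
    exact this.isQuotientMap
  · exact fun b => ⟨trivT, mem_univ b⟩
  · intro x
    rfl

end Pool.Agent.H49
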