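import Mathlib

/-!
# Complex manifolds from families of local homeomorphisms with analytic transitions
-/

open scoped Manifold ContDiff Topology
open Set Filter

namespace Pool.Agent.H49

/-- Gluing data: a family of local homeomorphisms `p i : E → M`, jointly surjective, with
analytic transitions. -/
structure Glue (ι E M : Type) [NormedAddCommGroup E] [NormedSpace ℂ E] [TopologicalSpace M] where
  p : ι → E → M
  loc : ∀ i, IsLocalHomeomorph (p i)
  surj : ∀ y, ∃ i x, p i x = y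
  trans : ∀ i j x x', p i x = p j x' → ∃ γ : E → E, ContDiffAt ℂ ω γ x ∧ γ x = x' ∧
    ∀ᶠ z in 𝓝 x, p j (γ z) = p i z

namespace Glue

variable {ι E M : Type} [NormedAddCommGroup E] [NormedSpace ℂ E] [TopologicalSpace M]
variable (D : Glue ι E M)

/-- The glued space (as a type, it is `M`). -/
def Space (_ : Glue ι E M) : Type := M

instance : TopologicalSpace D.Space := inferInstanceAs (TopologicalSpace M)

/-- The parametrizations. -/
def q (i : ι) (x : E) : D.Space := D.p i x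

lemma loc_q (i : ι) : IsLocalHomeomorph (D.q i) := D.loc i

lemma surj_q (y : D.Space) : ∃ i x, D.q i x = y := D.surj y

/-- A chosen index over `y`. -/
noncomputable def idx (y : D.Space) : ι := (D.surj_q y).choose
/-- A chosen preimage of `y`. -/
noncomputable def pre (y : D.Space) : E := (D.surj_q y).choose_spec.choose

lemma q_pre (y : D.Space) : D.q (D.idx y) (D.pre y) = y := (D.surj_q y).choose_spec.choose_spec

/-- The local inverse of `q i` at `x`. -/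
noncomputable def inv (i : ι) (x : E) : OpenPartialHomeomorph D.Space E :=
  (D.loc_q i).localInverseAt x

@[simp] lemma inv_symm (i : ι) (x : E) : ((D.inv i x).symm : E → D.Space) = D.q i :=
  (D.loc_q i).localInverseAt_symm x

@[simp] lemma q_mem_inv_source (i : ι) (x : E) : D.q i x ∈ (D.inv i x).source :=
  (D.loc_q i).apply_self_mem_localInverseAt_source

@[simp] lemma mem_inv_target (i : ι) (x : E) : x ∈ (D.inv i x).target :=
  (D.loc_q i).self_mem_localInverseAt_target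

@[simp] lemma inv_q (i : ι) (x : E) : D.inv i x (D.q i x) = x :=
  (D.loc_q i).localInverseAt_apply_self

lemma q_inv {i : ι} {x : E} {y : D.Space} (hy : y ∈ (D.inv i x).source) :
    D.q i (D.inv i x y) = y :=
  (D.loc_q i).apply_localInverseAt_of_mem hy

lemma inv_q_of_mem {i : ι} {x z : E} (hz : z ∈ (D.inv i x).target) :
    D.inv i x (D.q i z) = z := by
  have := (D.inv i x).right_inv hz
  rwa [inv_symm] at this

noncomputable instance : ChartedSpace E D.Space where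
  atlas := {e | ∃ i x, e = D.inv i x}
  chartAt y := D.inv (D.idx y) (D.pre y)
  mem_chart_source y := by
    have := D.q_mem_inv_source (D.idx y) (D.pre y)
    rwa [D.q_pre y] at this
  chart_mem_atlas y := ⟨_, _, rfl⟩

/-- The transition from `q i` near `z` to `inv j x'` coincides with any continuous lift. -/
lemma inv_comp_q_eventuallyEq {i j : ι} {x' z : E} {γ : E → E} (hγ : ContinuousAt γ z)
    (hz : γ z ∈ (D.inv j x').target) (h : ∀ᶠ w in 𝓝 z, D.q j (γ w) = D.q i w) :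
    (fun w => D.inv j x' (D.q i w)) =ᶠ[𝓝 z] γ := by
  have h1 : ∀ᶠ w in 𝓝 z, γ w ∈ (D.inv j x').target :=
    hγ.eventually ((D.inv j x').open_target.mem_nhds hz)
  filter_upwards [h, h1] with w hw hw1
  rw [← hw, D.inv_q_of_mem hw1]

lemma transQ {i j : ι} {x x' : E} (h : D.q i x = D.q j x') :
    ∃ γ : E → E, ContDiffAt ℂ ω γ x ∧ γ x = x' ∧ ∀ᶠ z in 𝓝 x, D.q j (γ z) = D.q i z :=
  D.trans i j x x' h

lemma contDiffAt_inv_comp_q {i j : ι} {x' z : E} (hz : D.q i z ∈ (D.inv j x').source) :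
    ContDiffAt ℂ ω (fun w => D.inv j x' (D.q i w)) z := by
  obtain ⟨γ, h1, h2, h3⟩ := D.transQ (i := i) (j := j) (x := z) (x' := D.inv j x' (D.q i z))
    (D.q_inv hz).symm
  refine h1.congr_of_eventuallyEq ?_
  refine D.inv_comp_q_eventuallyEq h1.continuousAt ?_ h3
  rw [h2]
  exact (D.inv j x').map_source hz

instance : IsManifold 𝓘(ℂ, E) ω D.Space := by
  apply isManifold_of_contDiffOn
  rintro e e' ⟨i, x, rfl⟩ ⟨j, x', rfl⟩
  intro z hz
  simp only [mfld_simps, inv_symm] at hz ⊢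
  exact (D.contDiffAt_inv_comp_q hz.2).contDiffWithinAt

lemma inv_mem_atlas (i : ι) (x : E) : D.inv i x ∈ atlas E D.Space := ⟨i, x, rfl⟩

lemma inv_mem_maximalAtlas (i : ι) (x : E) :
    D.inv i x ∈ IsManifold.maximalAtlas 𝓘(ℂ, E) ω D.Space :=
  IsManifold.subset_maximalAtlas (D.inv_mem_atlas i x)

lemma contMDiffOn_inv (i : ι) (x : E) :
    ContMDiffOn 𝓘(ℂ, E) 𝓘(ℂ, E) ω (D.inv i x) (D.inv i x).source :=
  contMDiffOn_of_mem_maximalAtlas (D.inv_mem_maximalAtlas i x)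

lemma contMDiffAt_inv {i : ι} {x : E} {y : D.Space} (hy : y ∈ (D.inv i x).source) :
    ContMDiffAt 𝓘(ℂ, E) 𝓘(ℂ, E) ω (D.inv i x) y :=
  (D.contMDiffOn_inv i x).contMDiffAt ((D.inv i x).open_source.mem_nhds hy)

lemma contMDiff_q (i : ι) : ContMDiff 𝓘(ℂ, E) 𝓘(ℂ, E) ω (D.q i) := by
  intro x
  have h := (contMDiffOn_symm_of_mem_maximalAtlas (D.inv_mem_maximalAtlas i x)).contMDiffAt
    ((D.inv i x).open_target.mem_nhds (D.mem_inv_target i x))
  rwa [inv_symm] at h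

lemma mdifferentiableAt_q (i : ι) (x : E) :
    MDifferentiableAt 𝓘(ℂ, E) 𝓘(ℂ, E) (D.q i) x :=
  (D.contMDiff_q i x).mdifferentiableAt (by simp)

/-- The derivative of the parametrization `q i` at `x`. -/
noncomputable def dq (i : ι) (x : E) : E →L[ℂ] TangentSpace 𝓘(ℂ, E) (D.q i x) :=
  mfderiv 𝓘(ℂ, E) 𝓘(ℂ, E) (D.q i) x

/-- Chain rule for transitions. -/
lemma dq_eq_of_trans {i j : ι} {x : E} {γ : E → E} (hγ : DifferentiableAt ℂ γ x)
    (h : ∀ᶠ z in 𝓝 x, D.q j (γ z) = D.q i z) (v : E) :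
    (D.dq i x v : E) = (D.dq j (γ x) (fderiv ℂ γ x v) : E) := by
  have h1 : mfderiv 𝓘(ℂ, E) 𝓘(ℂ, E) (D.q i) x = mfderiv 𝓘(ℂ, E) 𝓘(ℂ, E) (D.q j ∘ γ) x := by
    apply Filter.EventuallyEq.mfderiv_eq
    exact h.mono (fun z hz => hz.symm)
  have h2 := mfderiv_comp x (D.mdifferentiableAt_q j (γ x)) hγ.mdifferentiableAt
  have h3 : mfderiv 𝓘(ℂ, E) 𝓘(ℂ, E) (D.q i) x
    = (mfderiv 𝓘(ℂ, E) 𝓘(ℂ, E) (D.q j) (γ x)).comp (mfderiv 𝓘(ℂ, E) 𝓘(ℂ, E) γ x) := by
    rw [h1]; exact h2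
  have h4 : mfderiv 𝓘(ℂ, E) 𝓘(ℂ, E) γ x = fderiv ℂ γ x := mfderiv_eq_fderiv
  rw [h4] at h3
  unfold dq
  rw [h3]
  rfl

/-- The derivative of the local inverse `inv i x` at the point `q i x`. -/
noncomputable def dinv (i : ι) (x : E) : TangentSpace 𝓘(ℂ, E) (D.q i x) →L[ℂ] E :=
  mfderiv 𝓘(ℂ, E) 𝓘(ℂ, E) (D.inv i x) (D.q i x)

lemma dinv_dq (i : ι) (x : E) (v : E) : D.dinv i x (D.dq i x v) = v := by
  have h1 : MDifferentiableAt 𝓘(ℂ, E) 𝓘(ℂ, E) (D.inv i x) (D.q i x) :=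
    (D.contMDiffAt_inv (D.q_mem_inv_source i x)).mdifferentiableAt (by simp)
  have h2 := mfderiv_comp x h1 (D.mdifferentiableAt_q i x)
  have h3 : (D.inv i x ∘ D.q i) =ᶠ[𝓝 x] id := by
    filter_upwards [(D.inv i x).open_target.mem_nhds (D.mem_inv_target i x)] with z hz
    exact D.inv_q_of_mem hz
  have h4 : mfderiv 𝓘(ℂ, E) 𝓘(ℂ, E) (D.inv i x ∘ D.q i) x = ContinuousLinearMap.id ℂ E := by
    rw [h3.mfderiv_eq]
    exact mfderiv_id
  rw [h4] at h2
  exact (DFunLike.congr_fun h2 v).symm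

lemma dq_dinv (i : ι) (x : E) (v : TangentSpace 𝓘(ℂ, E) (D.q i x)) :
    D.dq i x (D.dinv i x v) = v := by
  have h1 : MDifferentiableAt 𝓘(ℂ, E) 𝓘(ℂ, E) (D.inv i x) (D.q i x) :=
    (D.contMDiffAt_inv (D.q_mem_inv_source i x)).mdifferentiableAt (by simp)
  have h0 : MDifferentiableAt 𝓘(ℂ, E) 𝓘(ℂ, E) (D.q i) (D.inv i x (D.q i x)) :=
    D.mdifferentiableAt_q i _
  have h2 := mfderiv_comp (D.q i x) h0 h1
  have h3 : (D.q i ∘ D.inv i x) =ᶠ[𝓝 (D.q i x)] id := by
    filter_upwards [(D.inv i x).open_source.mem_nhds (D.q_mem_inv_source i x)] with z hz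
    exact D.q_inv hz
  have h4 : mfderiv 𝓘(ℂ, E) 𝓘(ℂ, E) (D.q i ∘ D.inv i x) (D.q i x)
      = ContinuousLinearMap.id ℂ (TangentSpace 𝓘(ℂ, E) (D.q i x)) := by
    rw [h3.mfderiv_eq]
    exact mfderiv_id
  rw [h4] at h2
  have h5 := DFunLike.congr_fun h2 v
  rw [D.inv_q] at h5
  exact h5.symm

lemma dq_injective (i : ι) (x : E) : Function.Injective (D.dq i x) := by
  intro v w h
  rw [← D.dinv_dq i x v, ← D.dinv_dq i x w, h]

lemma dq_surjective (i : ι) (x : E) : Function.Surjective (D.dq i x) :=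
  fun v => ⟨_, D.dq_dinv i x v⟩

/-- `dq` seen as an endomorphism of the model space. -/
noncomputable def dqE (i : ι) (x : E) : E →L[ℂ] E := D.dq i x

lemma dqE_eq_of_trans {i j : ι} {x : E} {γ : E → E} (hγ : DifferentiableAt ℂ γ x)
    (h : ∀ᶠ z in 𝓝 x, D.q j (γ z) = D.q i z) (v : E) :
    D.dqE i x v = D.dqE j (γ x) (fderiv ℂ γ x v) :=
  D.dq_eq_of_trans hγ h v

lemma dqE_injective (i : ι) (x : E) : Function.Injective (D.dqE i x) := D.dq_injective i x

lemma dqE_surjective (i : ι) (x : E) : Function.Surjective (D.dqE i x) := D.dq_surjective i x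

/-- The inverse of `dqE`. -/
noncomputable def dinvE (i : ι) (x : E) : E →L[ℂ] E := D.dinv i x

lemma dinvE_dqE (i : ι) (x : E) (v : E) : D.dinvE i x (D.dqE i x v) = v := D.dinv_dq i x v

lemma dqE_dinvE (i : ι) (x : E) (v : E) : D.dqE i x (D.dinvE i x v) = v := D.dq_dinv i x v

/-- The derivative of a local inverse at any point of its source. -/
lemma mfderiv_inv_apply {i : ι} {x₀ x : E} (hx : x ∈ (D.inv i x₀).target) (v : E) :
    (mfderiv 𝓘(ℂ, E) 𝓘(ℂ, E) (D.inv i x₀) (D.q i x) (D.dqE i x v : E) : E) = v := by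
  have hx' : D.q i x ∈ (D.inv i x₀).source := by
    have := (D.inv i x₀).map_target hx
    rwa [inv_symm] at this
  have h1 : MDifferentiableAt 𝓘(ℂ, E) 𝓘(ℂ, E) (D.inv i x₀) (D.q i x) :=
    (D.contMDiffAt_inv hx').mdifferentiableAt (by simp)
  have h2 := mfderiv_comp x h1 (D.mdifferentiableAt_q i x)
  have h3 : (D.inv i x₀ ∘ D.q i) =ᶠ[𝓝 x] id := by
    filter_upwards [(D.inv i x₀).open_target.mem_nhds hx] with z hz
    exact D.inv_q_of_mem hz
  have h4 : mfderiv 𝓘(ℂ, E) 𝓘(ℂ, E) (D.inv i x₀ ∘ D.q i) x = ContinuousLinearMap.id ℂ E := by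
    rw [h3.mfderiv_eq]
    exact mfderiv_id
  rw [h4] at h2
  exact (DFunLike.congr_fun h2 v).symm

/-! ### Invariant distributions -/

/-- A family of subspaces of `E` compatible with the transitions. -/
def InvDist (d : E → Submodule ℂ E) : Prop :=
  ∀ i j x x', D.q i x = D.q j x' → ∃ γ : E → E, DifferentiableAt ℂ γ x ∧ γ x = x' ∧
    (∀ᶠ z in 𝓝 x, D.q j (γ z) = D.q i z) ∧ (d x).map (fderiv ℂ γ x).toLinearMap = d x'

/-- The distribution on the glued space induced by a family of subspaces. -/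
noncomputable def push (d : E → Submodule ℂ E) (y : D.Space) :
    Submodule ℂ (TangentSpace 𝓘(ℂ, E) y) :=
  (d (D.pre y)).map (D.dqE (D.idx y) (D.pre y)).toLinearMap

lemma push_q {d : E → Submodule ℂ E} (hd : D.InvDist d) (i : ι) (x : E) :
    D.push d (D.q i x) = (d x).map (D.dqE i x).toLinearMap := by
  obtain ⟨γ, h1, h2, h3, h4⟩ := hd i (D.idx (D.q i x)) x (D.pre (D.q i x)) (D.q_pre _).symm
  unfold push
  rw [← h4, ← h2]
  ext v
  simp only [Submodule.mem_map]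
  constructor
  · rintro ⟨w, ⟨u, hu, rfl⟩, rfl⟩
    exact ⟨u, hu, D.dqE_eq_of_trans h1 h3 u⟩
  · rintro ⟨u, hu, rfl⟩
    exact ⟨_, ⟨u, hu, rfl⟩, (D.dqE_eq_of_trans h1 h3 u).symm⟩

lemma dqE_mem_push_iff {d : E → Submodule ℂ E} (hd : D.InvDist d) (i : ι) (x v : E) :
    (D.dqE i x v : E) ∈ (D.push d (D.q i x) : Submodule ℂ E) ↔ v ∈ d x := by
  rw [D.push_q hd]
  constructor
  · rintro ⟨w, hw, h⟩
    have : w = v := D.dqE_injective i x h
    exact this ▸ hw
  · intro hv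
    exact ⟨v, hv, rfl⟩

/-! ### Invariant metrics -/

/-- A family of forms on `E` compatible with the transitions. -/
def InvForm (G : E → E → E → ℝ) : Prop :=
  ∀ i j x x', D.q i x = D.q j x' → ∃ γ : E → E, DifferentiableAt ℂ γ x ∧ γ x = x' ∧
    (∀ᶠ z in 𝓝 x, D.q j (γ z) = D.q i z) ∧
    ∀ v w, G x' (fderiv ℂ γ x v) (fderiv ℂ γ x w) = G x v w

/-- The induced form on the glued space. -/
noncomputable def pushForm (G : E → E → E → ℝ) (y : D.Space)
    (v w : TangentSpace 𝓘(ℂ, E) y) : ℝ :=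
  G (D.pre y) (D.dinvE (D.idx y) (D.pre y) v) (D.dinvE (D.idx y) (D.pre y) w)

lemma pushForm_q {G : E → E → E → ℝ} (hG : D.InvForm G) (i : ι) (x v w : E) :
    D.pushForm G (D.q i x) (D.dqE i x v : E) (D.dqE i x w : E) = G x v w := by
  obtain ⟨γ, h1, h2, h3, h4⟩ := hG i (D.idx (D.q i x)) x (D.pre (D.q i x)) (D.q_pre _).symm
  unfold pushForm
  rw [← h4]
  rw [D.dqE_eq_of_trans h1 h3 v, D.dqE_eq_of_trans h1 h3 w, h2, D.dinvE_dqE, D.dinvE_dqE]

/-! ### Continuity -/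

lemma continuousOn_sec (i : ι) (x₀ : E) {e : E → E} (he : Continuous e) :
    ContinuousOn (fun y : D.Space =>
      (⟨y, (D.dqE i (D.inv i x₀ y) (e (D.inv i x₀ y)) : E)⟩ : TangentBundle 𝓘(ℂ, E) D.Space))
      (D.inv i x₀).source := by
  have h1 : Continuous (tangentMap 𝓘(ℂ, E) 𝓘(ℂ, E) (D.q i)) :=
    (D.contMDiff_q i).continuous_tangentMap (by simp)
  have h2 : ContinuousOn (fun y : D.Space =>
      ((tangentBundleModelSpaceHomeomorph 𝓘(ℂ, E)).symm
        ((D.inv i x₀ y, e (D.inv i x₀ y)) : ModelProd E E) : TangentBundle 𝓘(ℂ, E) E))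
      (D.inv i x₀).source := by
    refine (tangentBundleModelSpaceHomeomorph 𝓘(ℂ, E)).symm.continuous.comp_continuousOn ?_
    have h3 : ContinuousOn (D.inv i x₀) (D.inv i x₀).source := (D.inv i x₀).continuousOn
    exact h3.prodMk (he.comp_continuousOn h3)
  refine (h1.comp_continuousOn h2).congr ?_
  intro y hy
  have h4 : D.q i (D.inv i x₀ y) = y := D.q_inv hy
  exact congrArg (fun z => (⟨z, (D.dqE i (D.inv i x₀ y) (e (D.inv i x₀ y)) : E)⟩ :
    TangentBundle 𝓘(ℂ, E) D.Space)) h4.symm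

lemma continuous_pushForm {G : E → E → E → ℝ} (hG : D.InvForm G)
    (hc : Continuous fun p : E × E => G p.1 p.2 p.2) :
    Continuous fun v : TangentBundle 𝓘(ℂ, E) D.Space => D.pushForm G v.1 v.2 v.2 := by
  rw [continuous_iff_continuousAt]
  intro v₀
  obtain ⟨i, x₀, hx₀⟩ := D.surj_q v₀.1
  set s := (D.inv i x₀).source with hs
  have hsopen : IsOpen s := (D.inv i x₀).open_source
  have h1 : ContinuousOn (tangentMapWithin 𝓘(ℂ, E) 𝓘(ℂ, E) (D.inv i x₀) s)
      (Bundle.TotalSpace.proj ⁻¹' s) :=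
    (D.contMDiffOn_inv i x₀).continuousOn_tangentMapWithin (by simp) hsopen.uniqueMDiffOn
  have h2 : ContinuousOn (fun v : TangentBundle 𝓘(ℂ, E) D.Space =>
      (tangentBundleModelSpaceHomeomorph 𝓘(ℂ, E))
        (tangentMapWithin 𝓘(ℂ, E) 𝓘(ℂ, E) (D.inv i x₀) s v)) (Bundle.TotalSpace.proj ⁻¹' s) :=
    (tangentBundleModelSpaceHomeomorph 𝓘(ℂ, E)).continuous.comp_continuousOn h1
  have h3 := hc.comp_continuousOn h2
  have hopen : IsOpen (Bundle.TotalSpace.proj ⁻¹' s : Set (TangentBundle 𝓘(ℂ, E) D.Space)) :=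
    hsopen.preimage (FiberBundle.continuous_proj E (TangentSpace 𝓘(ℂ, E)))
  have hmem : v₀ ∈ (Bundle.TotalSpace.proj ⁻¹' s : Set (TangentBundle 𝓘(ℂ, E) D.Space)) := by
    change v₀.1 ∈ s
    rw [← hx₀]
    exact D.q_mem_inv_source i x₀
  have h4 := h3.continuousAt (hopen.mem_nhds hmem)
  refine h4.congr ?_
  filter_upwards [hopen.mem_nhds hmem] with v hv
  obtain ⟨y, v⟩ := v
  change y ∈ s at hv
  have hx : D.q i (D.inv i x₀ y) = y := D.q_inv hv
  set x := D.inv i x₀ y with hxdef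
  have hxt : x ∈ (D.inv i x₀).target := (D.inv i x₀).map_source hv
  obtain ⟨w, hw⟩ := D.dqE_surjective i x v
  change G (D.inv i x₀ y) (mfderivWithin 𝓘(ℂ, E) 𝓘(ℂ, E) (D.inv i x₀) s y v)
    (mfderivWithin 𝓘(ℂ, E) 𝓘(ℂ, E) (D.inv i x₀) s y v) = D.pushForm G y v v
  rw [mfderivWithin_of_isOpen hsopen hv]
  have h5 := D.pushForm_q hG i x w w
  have h6 := D.mfderiv_inv_apply hxt w
  rw [hx] at h5 h6
  rw [hw] at h5 h6
  rw [h5]
  have h7 : (mfderiv 𝓘(ℂ, E) 𝓘(ℂ, E) (D.inv i x₀) y v : E) = w := h6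
  rw [h7]

end Glue

end Pool.Agent.H49
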